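import Mathlib
import Pool.Agent.Q100.SL.Stm
import Pool.Agent.Q100.SL.Bas

/-! # Project SL, jobs BCM, BCS, ERR: Bhattacharyya coefficients -/

set_option autoImplicit false

open Finset

namespace Q24.SL

open Q100.SL

/-- marginals of marginals -/
lemma mg_fib (w : Finset ℕ → ℝ) (n : ℕ) {C D c : Finset ℕ} (hCD : C ⊆ D) (hc : c ⊆ C) :
    ∑ d ∈ D.powerset with d ∩ C = c, mg w n D d = mg w n C c := by
  have e : mg w n C c = ∑ x ∈ (range n).powerset with x ∩ C = c, w x := by
    unfold mg
    rw [inter_eq_left.2 hc]
  rw [e]
  have h1 : ∀ x ∈ ((range n).powerset.filter fun x => x ∩ C = c),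
      x ∩ D ∈ D.powerset.filter fun d => d ∩ C = c := by
    intro x hx
    rw [mem_filter] at hx ⊢
    refine ⟨mem_powerset.2 inter_subset_right, ?_⟩
    rw [inter_assoc, inter_eq_right.2 hCD]
    exact hx.2
  rw [← sum_fiberwise_of_maps_to h1]
  refine sum_congr rfl fun d hd => ?_
  rw [mem_filter, mem_powerset] at hd
  unfold mg
  rw [inter_eq_left.2 hd.1, filter_filter]
  refine sum_congr ?_ fun _ _ => rfl
  ext x
  simp only [mem_filter]
  constructor
  · rintro ⟨h2, h3⟩
    refine ⟨h2, ?_, h3⟩
    rw [← hd.2, ← h3, inter_assoc, inter_eq_right.2 hCD]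
  · rintro ⟨h2, h3, h4⟩
    exact ⟨h2, h4⟩

lemma mg_nn {w : Finset ℕ → ℝ} (hw : ∀ z, 0 ≤ w z) (n : ℕ) (C z : Finset ℕ) : 0 ≤ mg w n C z :=
  sum_nonneg fun _ _ => hw _

/-- Cauchy-Schwarz on a fibre -/
lemma cs {ι : Type} (s : Finset ι) (f g : ι → ℝ) (hf : ∀ i, 0 ≤ f i) (hg : ∀ i, 0 ≤ g i) :
    ∑ i ∈ s, √(f i * g i) ≤ √((∑ i ∈ s, f i) * ∑ i ∈ s, g i) := by
  have h := Real.sum_sqrt_mul_sqrt_le s hf hg
  rw [← Real.sqrt_mul (sum_nonneg fun i _ => hf i)] at h
  refine le_trans (le_of_eq ?_) h
  refine sum_congr rfl fun i _ => ?_
  rw [Real.sqrt_mul (hf i)]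

theorem bcmono : S_bcmono := by
  intro p h0 h1 N n hv C D hCD hD
  unfold BC
  have hm : ∀ d ∈ D.powerset, d ∩ C ∈ C.powerset := fun d _ => mem_powerset.2 inter_subset_right
  rw [← sum_fiberwise_of_maps_to hm]
  refine sum_le_sum fun c hc => ?_
  rw [mem_powerset] at hc
  refine (cs _ _ _ (fun d => mg_nn (law_nonneg h0 h1 N n true) n D d)
    (fun d => mg_nn (law_nonneg h0 h1 N n false) n D d)).trans (le_of_eq ?_)
  rw [mg_fib _ n hCD hc, mg_fib _ n hCD hc]

theorem bcscouts (hsc : S_scoutmg) : S_bcscouts := by
  intro p h0 h1 N N' n n' hn he hv f M hf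
  have hq : 0 ≤ p * (1 - p) := mul_nonneg (by linarith) (by linarith)
  have hlw : law p N' n = law p N n := law_congr he
  unfold BC
  rw [sum_fib hn]
  -- one fibre
  have key : ∀ x ∈ (range n).powerset,
      ∑ z ∈ (range n').powerset with z ∩ range n = x,
        √(mg (law p N' n' true) n' (range n') z * mg (law p N' n' false) n' (range n') z) ≤
      √(law p N n true x * law p N n false x) * (2 * √(p * (1 - p))) ^ M := by
    intro x hx
    rw [mem_powerset] at hx
    by_cases hx0 : law p N n true x = 0
    · rw [hx0, zero_mul, Real.sqrt_zero, zero_mul]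
      apply le_of_eq
      refine sum_eq_zero fun z hz => ?_
      rw [mem_filter] at hz
      have h2 : law p N' n' true z = 0 := by
        by_contra hc
        have h3 := law_ne_of_le hn hc
        rw [← law_inter (hv.mono hn), hz.2, hlw] at h3
        exact h3 hx0
      rw [mg_self hv, h2, zero_mul, Real.sqrt_zero]
    · obtain ⟨hfx, hwin, S, hS, hSM, hSN⟩ := hf x hx hx0
      have hdisj : Disjoint (range n) S := by
        rw [disjoint_left]
        intro j hj hjS
        have := mem_Ico.1 (hS hjS)
        have := mem_range.1 hj
        omega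
      have hDn : range n ∪ S ⊆ range n' := by
        intro j hj
        rw [mem_union] at hj
        rcases hj with hj | hj
        · have := mem_range.1 hj
          rw [mem_range]; omega
        · have := mem_Ico.1 (hS hj)
          rw [mem_range]; omega
      -- group by the part in range n ∪ S
      have hm : ∀ z ∈ ((range n').powerset.filter fun z => z ∩ range n = x),
          z ∩ S ∈ S.powerset := fun z _ => mem_powerset.2 inter_subset_right
      rw [← sum_fiberwise_of_maps_to hm]
      have hT : ∀ T ∈ S.powerset,
          ∑ z ∈ ((range n').powerset.filter fun z => z ∩ range n = x) with z ∩ S = T,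
            √(mg (law p N' n' true) n' (range n') z * mg (law p N' n' false) n' (range n') z) ≤
          √(law p N n true x * law p N n false x) * (√(p * (1 - p))) ^ M := by
        intro T hT
        rw [mem_powerset] at hT
        have hxT : ∀ z, z ⊆ range n' → ((z ∩ range n = x ∧ z ∩ S = T) ↔
            z ∩ (range n ∪ S) = (x ∪ T) ∩ (range n ∪ S)) := by
          intro z _
          have e1 : (x ∪ T) ∩ (range n ∪ S) = x ∪ T :=
            inter_eq_left.2 (union_subset_union hx hT)
          rw [e1]
          constructor
          · rintro ⟨g1, g2⟩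
            rw [inter_union_distrib_left, g1, g2]
          · intro g
            have g1 : z ∩ (range n ∪ S) ∩ range n = x := by
              rw [g, union_inter_distrib_right, inter_eq_left.2 hx]
              have : T ∩ range n = ∅ := by
                rw [← disjoint_iff_inter_eq_empty]
                exact (hdisj.mono_right hT).symm
              rw [this, union_empty]
            have g2 : z ∩ (range n ∪ S) ∩ S = T := by
              rw [g, union_inter_distrib_right, inter_eq_left.2 hT]
              have : x ∩ S = ∅ := by
                rw [← disjoint_iff_inter_eq_empty]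
                exact hdisj.mono_left hx
              rw [this, empty_union]
            rw [inter_assoc, inter_eq_right.2 subset_union_left] at g1
            rw [inter_assoc, inter_eq_right.2 subset_union_right] at g2
            exact ⟨g1, g2⟩
        have hset : (((range n').powerset.filter fun z => z ∩ range n = x).filter
            fun z => z ∩ S = T) =
            (range n').powerset.filter fun z =>
              z ∩ (range n ∪ S) = (x ∪ T) ∩ (range n ∪ S) := by
          rw [filter_filter]
          refine filter_congr fun z hz => ?_
          exact hxT z (mem_powerset.1 hz)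
        rw [hset]
        refine (cs _ _ _ (fun d => mg_nn (law_nonneg h0 h1 N' n' true) n' _ d)
          (fun d => mg_nn (law_nonneg h0 h1 N' n' false) n' _ d)).trans ?_
        have hs : ∀ θ, ∑ z ∈ (range n').powerset with
            z ∩ (range n ∪ S) = (x ∪ T) ∩ (range n ∪ S), mg (law p N' n' θ) n' (range n') z =
            law p N n θ x * ∏ j ∈ S, sg p θ (decide (j ∈ x ∪ T)) := by
          intro θ
          have e1 : ∑ z ∈ (range n').powerset with
              z ∩ (range n ∪ S) = (x ∪ T) ∩ (range n ∪ S), mg (law p N' n' θ) n' (range n') z =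
              mg (law p N' n' θ) n' (range n ∪ S) (x ∪ T) := by
            conv_rhs => unfold mg
            refine sum_congr rfl fun z _ => ?_
            exact mg_self hv
          rw [e1]
          have hTn : x ∪ T ⊆ range n' := (union_subset_union hx hT).trans hDn
          have hxf : (x ∪ T) ∩ f x = x ∩ f x := by
            rw [union_inter_distrib_right]
            have : T ∩ f x = ∅ := by
              rw [← disjoint_iff_inter_eq_empty]
              exact ((hdisj.mono_left hfx).mono_right hT).symm
            rw [this, union_empty]
          have hW : Win p N' n' (f x) (x ∪ T) := (win_ext hn hv he hfx hxf).2 hwin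
          rw [hsc p h0 h1 N' n' n hv (f x) S (x ∪ T) hn hfx hS hSN hTn hW θ, mg_range hn hv, hlw]
          congr 1
          apply law_eq ((hv.mono hn).congr fun j hj => (he j hj).symm)
          intro j hj
          rw [mem_union]
          constructor
          · rintro (h | h)
            · exact h
            · exact absurd (mem_range.2 hj) (disjoint_right.1 hdisj (hT h))
          · exact Or.inl
        rw [hs, hs]
        apply le_of_eq
        have e2 : law p N n true x * (∏ j ∈ S, sg p true (decide (j ∈ x ∪ T))) *
            (law p N n false x * ∏ j ∈ S, sg p false (decide (j ∈ x ∪ T))) =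
            (law p N n true x * law p N n false x) * (p * (1 - p)) ^ M := by
          have e3 : (∏ j ∈ S, sg p true (decide (j ∈ x ∪ T))) *
              (∏ j ∈ S, sg p false (decide (j ∈ x ∪ T))) = (p * (1 - p)) ^ M := by
            rw [← prod_mul_distrib, ← hSM, ← prod_const]
            refine prod_congr rfl fun j _ => ?_
            cases decide (j ∈ x ∪ T) <;> simp [sg] <;> ring
          rw [← e3]
          ring
        have e5 : (p * (1 - p)) ^ M = (√(p * (1 - p)) ^ M) ^ 2 := by
          rw [← pow_mul, mul_comm M 2, pow_mul, Real.sq_sqrt hq]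
        rw [e2, Real.sqrt_mul (mul_nonneg (law_nonneg h0 h1 _ _ _ _) (law_nonneg h0 h1 _ _ _ _)),
          e5, Real.sqrt_sq (by positivity)]
      refine (sum_le_sum hT).trans (le_of_eq ?_)
      rw [sum_const, card_powerset, hSM, nsmul_eq_mul, mul_pow]
      push_cast
      ring
  refine (sum_le_sum key).trans ?_
  rw [← sum_mul]
  have h2 : ∑ x ∈ (range n).powerset, √(law p N n true x * law p N n false x) ≤ 1 := by
    refine (cs _ _ _ (law_nonneg h0 h1 N n true) (law_nonneg h0 h1 N n false)).trans ?_
    have hvn : Val N n := (hv.mono hn).congr fun j hj => (he j hj).symm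
    rw [law_total hvn, law_total hvn, mul_one, Real.sqrt_one]
  have h3 : 0 ≤ (2 * √(p * (1 - p))) ^ M := by positivity
  exact mul_le_of_le_one_left h3 h2

theorem err_le : S_err := by
  intro p h0 h1 N j hv
  have hvj : Val N j := hv.mono (Nat.le_succ j)
  have hNj : N j ⊆ range j := hv j (Nat.lt_succ_self j)
  have hq : √(p * (1 - p)) ≤ 1 / 2 := by
    rw [show (1 : ℝ) / 2 = √((1 / 2) ^ 2) by rw [Real.sqrt_sq (by norm_num)]]
    apply Real.sqrt_le_sqrt
    nlinarith [sq_nonneg (p - 1 / 2)]
  unfold err BC
  rw [sum_fib (Nat.le_succ j)]
  have e1 : ∀ x ∈ (range j).powerset,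
      ∑ z ∈ (range (j + 1)).powerset with z ∩ range j = x, law p N (j + 1) (decide (j ∉ z)) z =
      law p N j true x * pact p (fun t => mg (law p N j t) j (N j) (x ∩ N j)) true false +
      law p N j false x * pact p (fun t => mg (law p N j t) j (N j) (x ∩ N j)) false true := by
    intro x hx
    rw [mem_powerset] at hx
    have hjx : j ∉ x := fun h => by simpa using hx h
    rw [sum_fib_succ hx]
    have h3 : (fun t => mg (law p N j t) j (N j) x) =
        (fun t => mg (law p N j t) j (N j) (x ∩ N j)) := by
      funext t
      apply mg_congr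
      rw [inter_assoc, inter_self]
    have h4 : (fun t => mg (law p N j t) j (N j) (insert j x)) =
        (fun t => mg (law p N j t) j (N j) (x ∩ N j)) := by
      funext t
      apply mg_congr
      rw [inter_assoc, inter_self]
      refine inter_eq_of_forall fun i hi => ?_
      have := mem_range.1 (hNj hi)
      simp; intro; omega
    have h5 : law p N j false (insert j x) = law p N j false x := law_eq hvj fun i hi => by
      simp; intro; omega
    rw [law, law]
    simp only [hjx, not_false_eq_true, decide_true, decide_false, mem_insert_self, not_true_eq_false]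
    rw [h3, h4, h5]
  rw [sum_congr rfl e1]
  have hm : ∀ x ∈ (range j).powerset, x ∩ N j ∈ (N j).powerset :=
    fun d _ => mem_powerset.2 inter_subset_right
  rw [← sum_fiberwise_of_maps_to hm]
  refine sum_le_sum fun c hc => ?_
  rw [mem_powerset] at hc
  obtain ⟨a, ha⟩ : ∃ a : Bool → ℝ, a = fun t => mg (law p N j t) j (N j) c := ⟨_, rfl⟩
  have e2 : ∑ x ∈ (range j).powerset with x ∩ N j = c,
      (law p N j true x * pact p (fun t => mg (law p N j t) j (N j) (x ∩ N j)) true false +
      law p N j false x * pact p (fun t => mg (law p N j t) j (N j) (x ∩ N j)) false true) =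
      a true * pact p a true false + a false * pact p a false true := by
    have e3 : ∀ t, a t = ∑ x ∈ (range j).powerset with x ∩ N j = c, law p N j t x := by
      intro t
      rw [ha]
      simp only [mg]
      rw [inter_eq_left.2 hc]
    rw [e3 true, e3 false, sum_mul, sum_mul, ← sum_add_distrib]
    refine sum_congr rfl fun x hx => ?_
    rw [mem_filter] at hx
    rw [hx.2, ← ha]
  rw [e2]
  have ha0 : ∀ t, 0 ≤ a t := by
    intro t
    rw [ha]
    exact mg_nn (law_nonneg h0 h1 N j t) j (N j) c
  have e4 : mg (law p N j true) j (N j) c * mg (law p N j false) j (N j) c =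
      a true * a false := by rw [ha]
  rw [e4]
  -- the error given the observations
  have hmin : ∀ s : Bool, a true * (if act p a s = false then sg p true s else 0) +
      a false * (if act p a s = true then sg p false s else 0) ≤
      √(a true * a false) * √(p * (1 - p)) := by
    intro s
    have hsg : sg p true s * sg p false s = p * (1 - p) := by
      cases s <;> simp [sg] <;> ring
    have hst := sg_pos h0 h1 true s
    have hsf := sg_pos h0 h1 false s
    have hr : √(a true * a false) * √(p * (1 - p)) =
        √((a true * sg p true s) * (a false * sg p false s)) := by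
      rw [← Real.sqrt_mul (mul_nonneg (ha0 _) (ha0 _)), ← hsg]
      congr 1
      ring
    rw [hr]
    have hu : 0 ≤ a true * sg p true s := mul_nonneg (ha0 _) hst.le
    have hw : 0 ≤ a false * sg p false s := mul_nonneg (ha0 _) hsf.le
    by_cases hc : a false * sg p false s ≤ a true * sg p true s
    · have hact : act p a s = true := by
        unfold act
        exact decide_eq_true hc
      rw [hact]
      simp only [Bool.true_eq_false, if_false, if_true, mul_zero, zero_add]
      apply Real.le_sqrt_of_sq_le
      nlinarith
    · have hact : act p a s = false := by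
        unfold act
        exact decide_eq_false hc
      rw [hact]
      simp only [Bool.false_eq_true, if_false, if_true, mul_zero, add_zero]
      apply Real.le_sqrt_of_sq_le
      nlinarith [not_le.1 hc]
  unfold pact
  rw [mul_sum, mul_sum, ← sum_add_distrib]
  refine (sum_le_sum fun s _ => hmin s).trans ?_
  rw [sum_const, card_univ, Fintype.card_bool, nsmul_eq_mul]
  push_cast
  have := Real.sqrt_nonneg (a true * a false)
  nlinarith

end Q24.SL
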