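import Mathlib
import Pool.Agent.Q100.SL.Stm
import Pool.Agent.Q100.SL.Bas

/-! # Project SL, jobs BLK, BLS: blocks -/

set_option autoImplicit false

open Finset

namespace Q24.SL

open Q100.SL

theorem blk : S_blk := by
  intro p h0 h1 Ω ι _ W X N N' N'' n n' n'' m C c o S hF hmn hCm hv hn'' he
  have hnn := hF.le
  have hlw : law p N'' n' = law p N' n' := law_congr he
  have hvn' : Val N'' n' := hv.mono hn''
  have hlwn : law p N'' n = law p N n := law_congr fun j hj => by
    rw [he j (by omega), hF.ext j hj]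
  have hCr : C ⊆ range n' := hCm.trans (range_subset_range.2 (by omega))
  have hSr : S ⊆ range n' := fun j hj => by
    have := mem_Ico.1 (hF.sc hj)
    rw [mem_range]; omega
  have hzC : ∀ z : Finset ℕ, z ∩ range n' ∩ C = z ∩ C := fun z => by
    rw [inter_assoc, inter_eq_right.2 hCr]
  have hl0 : ∀ z, law p N'' n'' true z ≠ 0 → law p N' n' true (z ∩ range n') ≠ 0 := by
    intro z hz
    have h2 := law_ne_of_le hn'' hz
    rw [← law_inter hvn', hlw] at h2
    exact h2
  refine ⟨?_, ?_, ?_, ?_, ?_, ?_⟩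
  · intro i
    have := hF.out i
    omega
  · intro j hj
    have := mem_Ico.1 (hF.sc hj)
    rw [mem_Ico]; omega
  · intro j hj
    have := mem_Ico.1 (hF.sc hj)
    rw [he j this.2]
    exact hF.scn j hj
  · intro z _ hzc hz0 hS i
    have h2 := hF.one (z ∩ range n') inter_subset_right (by rw [hzC, hzc]) (hl0 z hz0)
      (fun j hj => mem_inter.2 ⟨hS hj, hSr hj⟩) i
    exact (mem_inter.1 h2).1
  · intro z _ hzc hz0 hS i hi
    have h2 := hF.zero (z ∩ range n') inter_subset_right (by rw [hzC, hzc]) (hl0 z hz0)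
      (hS.mono_right inter_subset_left) i
    exact h2 (mem_inter.2 ⟨hi, mem_range.2 (hF.out i).2⟩)
  · intro z _ hzc θ I
    have hD : range m ∪ I.image o ⊆ range n' := by
      intro j hj
      rw [mem_union, mem_image] at hj
      rcases hj with hj | ⟨i, _, rfl⟩
      · have := mem_range.1 hj
        rw [mem_range]; omega
      · exact mem_range.2 (hF.out i).2
    rw [mg_ext hn'' hv hD, mg_range (by omega) hv, hlw]
    conv_lhs => unfold mg
    rw [sum_filter, sum_fib hnn]
    -- one fibre
    have key : ∀ x ∈ (range n).powerset,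
        ∑ y ∈ (range n').powerset with y ∩ range n = x,
          (if y ∩ (range m ∪ I.image o) = z ∩ (range m ∪ I.image o) then law p N' n' θ y else 0) =
        if x ∩ range m = z ∩ range m then law p N n θ x *
          ∑ ω, (if (∀ i ∈ I, X i ω = decide (o i ∈ z)) then W θ ω else 0) else 0 := by
      intro x hx
      rw [mem_powerset] at hx
      have hcond : ∀ y, y ∩ range n = x → ((y ∩ (range m ∪ I.image o) =
          z ∩ (range m ∪ I.image o)) ↔ (x ∩ range m = z ∩ range m ∧
            ∀ i ∈ I, decide (o i ∈ y) = decide (o i ∈ z))) := by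
        intro y hy
        have hym : y ∩ range m = x ∩ range m := by
          rw [← hy, inter_assoc, inter_eq_right.2 (range_subset_range.2 hmn)]
        constructor
        · intro h
          have h2 := forall_of_inter_eq h
          refine ⟨?_, fun i hi => ?_⟩
          · rw [← hym]
            exact inter_eq_of_forall fun j hj => h2 j (mem_union_left _ hj)
          · simp [h2 (o i) (mem_union_right _ (mem_image_of_mem o hi))]
        · rintro ⟨h2, h3⟩
          rw [← hym] at h2
          have h2 := forall_of_inter_eq h2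
          refine inter_eq_of_forall fun j hj => ?_
          rcases mem_union.1 hj with hj | hj
          · exact h2 j hj
          · obtain ⟨i, hi, rfl⟩ := mem_image.1 hj
            simpa using h3 i hi
      by_cases hxz : x ∩ range m = z ∩ range m
      · rw [if_pos hxz]
        have hxc : x ∩ C = c := by
          rw [← hzc]
          have h2 := forall_of_inter_eq hxz
          exact inter_eq_of_forall fun j hj => h2 j (hCm hj)
        have hlwx := hF.lw x hx hxc θ
          (fun Y => if (∀ i ∈ I, Y i = decide (o i ∈ z)) then (1 : ℝ) else 0)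
        simp only at hlwx
        have e1 : ∑ ω, (if (∀ i ∈ I, X i ω = decide (o i ∈ z)) then W θ ω else 0) =
            ∑ ω, W θ ω * (if (∀ i ∈ I, X i ω = decide (o i ∈ z)) then (1 : ℝ) else 0) := by
          refine sum_congr rfl fun ω _ => ?_
          split_ifs <;> simp
        rw [e1, ← hlwx]
        refine sum_congr rfl fun y hy => ?_
        rw [mem_filter] at hy
        by_cases h2 : ∀ i ∈ I, decide (o i ∈ y) = decide (o i ∈ z)
        · rw [if_pos ((hcond y hy.2).2 ⟨hxz, h2⟩), if_pos h2, mul_one]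
        · rw [if_neg (fun h => h2 ((hcond y hy.2).1 h).2), if_neg h2, mul_zero]
      · rw [if_neg hxz]
        refine sum_eq_zero fun y hy => ?_
        rw [mem_filter] at hy
        rw [if_neg (fun h => hxz ((hcond y hy.2).1 h).1)]
    rw [sum_congr rfl key, ← sum_filter, ← sum_mul]
    congr 1
    have hvN : Val N n := (hv.mono (by omega)).congr fun j hj => by
      rw [he j (by omega), hF.ext j hj]
    have e2 := mg_range (p := p) (N := N) (θ := θ) (z := z) hmn hvN
    unfold mg at e2
    rw [e2]
    have e3 : law p N'' m = law p N m := law_congr fun j hj => by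
      rw [he j (by omega), hF.ext j (by omega)]
    rw [e3]

/-- one context, several blocks -/
lemma blocks_one (hb : S_blk) (p : ℝ) (h0 : 1 / 2 < p) (h1 : p < 1) {Ω ι : Type} [Fintype Ω]
    {W : Bool → Ω → ℝ} {X : ι → Ω → Bool} (hR : Rl p W X) (N : ℕ → Finset ℕ) (n : ℕ)
    (C x : Finset ℕ) (hC : C ⊆ range n) (hw : Win p N n C x) (K : ℕ) :
    ∀ (N1 : ℕ → Finset ℕ) (n1 : ℕ), n ≤ n1 → (∀ j < n, N1 j = N j) → Val N1 n1 →
    ∃ (N2 : ℕ → Finset ℕ) (n2 : ℕ), n1 ≤ n2 ∧ (∀ j < n1, N2 j = N1 j) ∧ Val N2 n2 ∧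
      (∀ j, n1 ≤ j → j < n2 → C ⊆ N2 j) ∧
      ∃ (o : Fin K → ι → ℕ) (S : Fin K → Finset ℕ), (∀ k, S k ⊆ Ico n1 n2) ∧
        (∀ k l, k ≠ l → Disjoint (S k) (S l)) ∧
        ∀ (N3 : ℕ → Finset ℕ) (n3 : ℕ), Val N3 n3 → n2 ≤ n3 → (∀ j < n2, N3 j = N2 j) →
          ∀ k, Blk p N3 n3 n C (x ∩ C) W X (o k) (S k) := by
  induction K with
  | zero =>
    intro N1 n1 _ _ hv
    exact ⟨N1, n1, le_rfl, fun _ _ => rfl, hv, fun j h2 h3 => by omega, fun k => k.elim0,
      fun k => k.elim0, fun k => k.elim0, fun k => k.elim0, fun _ _ _ _ _ k => k.elim0⟩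
  | succ K ih =>
    intro N1 n1 hn1 he1 hv1
    obtain ⟨N2, n2, hn2, he2, hv2, hnb2, o, S, hS, hSd, hB⟩ := ih N1 n1 hn1 he1 hv1
    have he : ∀ j < n, N2 j = N j := fun j hj => by rw [he2 j (by omega), he1 j hj]
    have hC2 : C ⊆ range n2 := hC.trans (range_subset_range.2 (by omega))
    have hw2 : Win p N2 n2 C (x ∩ C) :=
      (win_ext (by omega) hv2 he hC (by rw [inter_assoc, inter_self])).2 hw
    obtain ⟨N3, n3, o', S', hF⟩ := hR N2 n2 C (x ∩ C) hv2 hC2 inter_subset_right hw2
    have hn3 := hF.le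
    have hv3 : Val N3 n3 := by
      intro j hj
      by_cases hj2 : j < n2
      · rw [hF.ext j hj2]
        exact hv2 j hj2
      · refine (hF.nb j (by omega) hj).2.trans ?_
        intro i hi
        rw [mem_union] at hi
        rw [mem_range]
        rcases hi with hi | hi
        · have := mem_range.1 (hC2 hi)
          omega
        · exact (mem_Ico.1 hi).2
    refine ⟨N3, n3, by omega, fun j hj => by rw [hF.ext j (by omega), he2 j hj], hv3, ?_,
      Fin.cons o' o, Fin.cons S' S, ?_, ?_, ?_⟩
    · intro j hj1 hj2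
      by_cases hj : j < n2
      · rw [hF.ext j hj]
        exact hnb2 j hj1 hj
      · exact (hF.nb j (by omega) hj2).1
    · intro k
      refine Fin.cases ?_ (fun k => ?_) k
      · rw [Fin.cons_zero]
        exact hF.sc.trans (Ico_subset_Ico hn2 le_rfl)
      · rw [Fin.cons_succ]
        exact (hS k).trans (Ico_subset_Ico le_rfl hn3)
    · have hd : ∀ k, Disjoint S' (S k) := by
        intro k
        rw [disjoint_left]
        intro j hj hj'
        have := mem_Ico.1 (hF.sc hj)
        have := mem_Ico.1 (hS k hj')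
        omega
      intro k l
      refine Fin.cases ?_ (fun k => ?_) k
      · refine Fin.cases ?_ (fun l => ?_) l
        · intro h
          exact absurd rfl h
        · intro _
          rw [Fin.cons_zero, Fin.cons_succ]
          exact hd l
      · refine Fin.cases ?_ (fun l => ?_) l
        · intro _
          rw [Fin.cons_zero, Fin.cons_succ]
          exact (hd k).symm
        · intro h
          rw [Fin.cons_succ, Fin.cons_succ]
          exact hSd k l fun e => h (by rw [e])
    · intro N4 n4 hv4 hn4 he4 k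
      refine Fin.cases ?_ (fun k => ?_) k
      · rw [Fin.cons_zero, Fin.cons_zero]
        exact hb p h0 h1 Ω ι W X N2 N3 N4 n2 n3 n4 n C (x ∩ C) o' S' hF (by omega) hC hv4 hn4 he4
      · rw [Fin.cons_succ, Fin.cons_succ]
        exact hB N4 n4 hv4 (by omega) (fun j hj => by rw [he4 j (by omega), hF.ext j hj]) k

theorem blocks (hb : S_blk) : S_blocks := by
  intro p h0 h1 Ω ι _ W X hR N n hv A f hA K
  -- stable version, by induction on the set of contexts
  have key : ∀ A' : Finset (Finset ℕ), A' ⊆ A →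
      ∃ (N' : ℕ → Finset ℕ) (n' : ℕ), n ≤ n' ∧ (∀ j < n, N' j = N j) ∧ Val N' n' ∧
        (∀ j, n ≤ j → j < n' → ∃ x ∈ A, f x ⊆ N' j) ∧
        ∀ x ∈ A', ∃ (o : Fin K → ι → ℕ) (S : Fin K → Finset ℕ),
          (∀ k l, k ≠ l → Disjoint (S k) (S l)) ∧
          ∀ (N3 : ℕ → Finset ℕ) (n3 : ℕ), Val N3 n3 → n' ≤ n3 → (∀ j < n', N3 j = N' j) →
            ∀ k, Blk p N3 n3 n (f x) (x ∩ f x) W X (o k) (S k) := by
    intro A'
    induction A' using Finset.induction_on with
    | empty =>
      intro _
      exact ⟨N, n, le_rfl, fun _ _ => rfl, hv, fun j h2 h3 => by omega,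
        fun x hx => absurd hx (notMem_empty x)⟩
    | insert a A' _ ih =>
      intro hsub
      obtain ⟨N1, n1, hn1, he1, hv1, hnb1, hB1⟩ := ih ((subset_insert a A').trans hsub)
      have haA : a ∈ A := hsub (mem_insert_self a A')
      obtain ⟨_, hfa, hwa⟩ := hA a haA
      obtain ⟨N2, n2, hn2, he2, hv2, hnb2, o, S, hS, hSd, hB⟩ :=
        blocks_one hb p h0 h1 hR N n (f a) a hfa hwa K N1 n1 hn1 he1 hv1
      refine ⟨N2, n2, by omega, fun j hj => by rw [he2 j (by omega), he1 j hj], hv2, ?_, ?_⟩
      · intro j hj1 hj2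
        by_cases hj : j < n1
        · rw [he2 j hj]
          exact hnb1 j hj1 hj
        · exact ⟨a, haA, hnb2 j (by omega) hj2⟩
      · intro x hx
        rcases mem_insert.1 hx with rfl | hx
        · exact ⟨o, S, hSd, hB⟩
        · obtain ⟨o', S', hd', hB'⟩ := hB1 x hx
          exact ⟨o', S', hd', fun N3 n3 hv3 hn3 he3 k =>
            hB' N3 n3 hv3 (by omega) (fun j hj => by rw [he3 j (by omega), he2 j hj]) k⟩
  obtain ⟨N', n', hn, he, hv', hnb, hB⟩ := key A subset_rfl
  refine ⟨N', n', hn, he, hv', hnb, fun x hx => ?_⟩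
  obtain ⟨o, S, hd, hB'⟩ := hB x hx
  exact ⟨o, S, fun k => hB' N' n' hv' le_rfl (fun _ _ => rfl) k, hd⟩

end Q24.SL
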