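import Pool.Agent.Q24.SL.Ser
import Pool.Agent.TH41.SC.Fin

/-!
# Project SL2: job K1C (values at `0`)
-/

set_option autoImplicit false

open MeasureTheory Filter Topology

namespace Pool.Agent.Q24.SL

open Pool.Agent.Q167.SL

lemma r_pow {η : ℝ} (k : ℕ) : (Real.exp (-η) ^ 2) ^ (2 * k + 1) = Real.exp (-((2 * k + 1) * η)) ^ 2 := by
  rw [← Real.exp_nat_mul, ← Real.exp_nat_mul, ← Real.exp_nat_mul]
  congr 1
  push_cast
  ring

lemma r_pow' {η : ℝ} (k : ℕ) : Real.exp (-η) * (Real.exp (-η) ^ 2) ^ k = Real.exp (-((2 * k + 1) * η)) := by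
  rw [← Real.exp_nat_mul, ← Real.exp_nat_mul, ← Real.exp_add]
  congr 1
  push_cast
  ring

lemma s_pow {η : ℝ} (k : ℕ) : Real.exp (-η) ^ (2 * k + 1) = Real.exp (-((2 * k + 1) * η)) := by
  rw [← Real.exp_nat_mul]
  congr 1
  push_cast
  ring

lemma ch_x {u x : ℝ} (hx : x = Real.exp (-u)) : Real.cosh u = (x⁻¹ + x) / 2 := by
  rw [Real.cosh_eq, hx, Real.exp_neg, inv_inv]

lemma sh_x {u x : ℝ} (hx : x = Real.exp (-u)) : Real.sinh u = (x⁻¹ - x) / 2 := by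
  rw [Real.sinh_eq, hx, Real.exp_neg, inv_inv]

lemma CS_eq {η : ℝ} (hη : 0 < η) (k : ℕ) :
    Cl η k / Sl η k = 2 * Real.exp (-η) * Pool.Agent.TH41.SC.a (Real.exp (-η) ^ 2) k := by
  obtain ⟨x, hx⟩ : ∃ x : ℝ, x = Real.exp (-((2 * k + 1) * η)) := ⟨_, rfl⟩
  have hx0 : 0 < x := by
    rw [hx]
    exact Real.exp_pos _
  have hx1 : x < 1 := by
    rw [hx, Real.exp_lt_one_iff]
    have : 0 < (2 * (k : ℝ) + 1) * η := by positivity
    linarith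
  unfold Cl Sl Pool.Agent.TH41.SC.a
  rw [r_pow, ch_x hx, sh_x hx, ← hx]
  have h1 : 2 * Real.exp (-η) * ((Real.exp (-η) ^ 2) ^ k * (1 + x ^ 2) / (1 - x ^ 2) ^ 2) =
      2 * (Real.exp (-η) * (Real.exp (-η) ^ 2) ^ k) * (1 + x ^ 2) / (1 - x ^ 2) ^ 2 := by ring
  rw [h1, r_pow', ← hx]
  have h2 : 1 - x ^ 2 ≠ 0 := by
    have : 0 < 1 - x ^ 2 := by nlinarith
    exact this.ne'
  have h3 : x⁻¹ - x = (1 - x ^ 2) / x := by
    field_simp
  have h4 : x⁻¹ + x = (1 + x ^ 2) / x := by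
    field_simp
  rw [h3, h4]
  field_simp

lemma S_eq {η : ℝ} (hη : 0 < η) (k : ℕ) :
    1 / Sl η k = 2 * Real.exp (-η) * (Pool.Agent.TH41.SC.a (Real.exp (-η) ^ 2) k *
      Pool.Agent.W48.KS.ph (Pool.Agent.TH41.SC.cc (Real.exp (-η) ^ 2) (2 * k + 1))) := by
  have h1 : Real.exp (-η) < 1 := by
    rw [Real.exp_lt_one_iff]
    linarith
  rw [Pool.Agent.TH41.SC.ph_cc (Real.exp_pos _) h1 _ (by omega), ← mul_assoc, ← CS_eq hη, s_pow, r_pow]
  obtain ⟨x, hx⟩ : ∃ x : ℝ, x = Real.exp (-((2 * k + 1) * η)) := ⟨_, rfl⟩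
  have hx0 : 0 < x := by
    rw [hx]
    exact Real.exp_pos _
  rw [← hx]
  have hS := Sl_pos hη k
  unfold Cl
  rw [ch_x hx]
  have h2 : 0 < 1 + x ^ 2 := by positivity
  have h4 : x⁻¹ + x = (1 + x ^ 2) / x := by
    field_simp
  rw [h4]
  field_simp

lemma tsum_CS {η : ℝ} (hη : 0 < η) : ∑' l, Cl η l / Sl η l = oS η := by
  have h1 : oS η = Pool.Agent.TH41.SC.oddSum η := rfl
  rw [h1, Pool.Agent.TH41.SC.oddSum_eq hη, ← tsum_mul_left]
  exact tsum_congr fun k => CS_eq hη k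

lemma tsum_S {η : ℝ} (hη : 0 < η) : ∑' l, 1 / Sl η l = eS η := by
  have h1 : eS η = Pool.Agent.TH41.SC.evenSum η := rfl
  rw [h1, Pool.Agent.TH41.SC.evenSum_eq hη, ← tsum_mul_left]
  exact tsum_congr fun k => S_eq hη k

lemma Hf_zero {η : ℝ} (hη : 0 < η) : Hf η 0 = (oS η : ℂ) := by
  unfold Hf
  rw [← tsum_CS hη, Complex.ofReal_tsum]
  apply tsum_congr
  intro l
  rw [sub_zero, Complex.ofReal_div]

lemma Gf_zero {η : ℝ} (hη : 0 < η) : Gf η 0 = (eS η : ℂ) := by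
  unfold Gf
  rw [← tsum_S hη, Complex.ofReal_tsum]
  apply tsum_congr
  intro l
  rw [sub_zero, Complex.ofReal_div, Complex.ofReal_one]

lemma oS_pos {η : ℝ} (hη : 0 < η) : 0 < oS η := by
  rw [← tsum_CS hη]
  exact (summ_CS hη).tsum_pos (fun l => div_nonneg (Cl_pos η l).le (Sl_pos hη l).le) 0
    (div_pos (Cl_pos η 0) (Sl_pos hη 0))

lemma eS_pos {η : ℝ} (hη : 0 < η) : 0 < eS η := by
  rw [← tsum_S hη]
  exact (summ_1S hη).tsum_pos (fun l => div_nonneg zero_le_one (Sl_pos hη l).le) 0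
    (div_pos one_pos (Sl_pos hη 0))

lemma deriv_sg_zero {η : ℝ} (hη : 0 < η) : deriv (sg η) 0 = (oS η : ℂ) := by
  have h0 : |(0 : ℂ).re| < η := by
    rw [Complex.zero_re, abs_zero]
    exact hη
  have h1 := (Complex.hasDerivAt_sinh 0).mul (HS_diff hη h0).hasDerivAt
  have h2 : deriv (sg η) 0 = Complex.cosh 0 * Hf η (Complex.sinh 0 ^ 2) +
      Complex.sinh 0 * deriv (fun z => Hf η (Complex.sinh z ^ 2)) 0 := h1.deriv
  rw [h2, Complex.sinh_zero, Complex.cosh_zero, zero_mul, add_zero, one_mul, zero_pow (by norm_num), Hf_zero hη]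

theorem k1c : S_k1c := by
  intro _ η hη
  refine ⟨?_, deriv_sg_zero hη, ?_, oS_pos hη, eS_pos hη⟩
  · unfold sg
    rw [Complex.sinh_zero, zero_mul]
  · unfold tt
    rw [Complex.sinh_zero, Complex.cosh_zero, one_mul, zero_pow (by norm_num), Hf_zero hη, Gf_zero hη]
    push_cast
    rfl

/-- all parts of `S_k1` -/
theorem k1 : S_k1 := by
  intro η hη
  obtain ⟨a1, a2, _⟩ := k1a η hη
  obtain ⟨b1, b2, b3, b4⟩ := k1b η hη
  obtain ⟨c1, c2, c3, c4, c5⟩ := k1c k1a η hη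
  exact ⟨fun s hs => ⟨(a1 s hs).1, (a1 s hs).2.1⟩, b1, b2, b3, b4, a2, c1, c2, c3, c4, c5⟩

end Pool.Agent.Q24.SL
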