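import Pool.Agent.Q24.SL.Ser
import Pool.Agent.TH41.BL.LMA

/-!
# Project SL2: job K2 (the primitive)
-/

set_option autoImplicit false

open MeasureTheory Filter Topology

namespace Pool.Agent.Q24.SL

open Pool.Agent.Q167.SL

/-- The integrand of `Ps`. -/
noncomputable def fs (η : ℝ) (s : ℂ) : ℂ := deriv (sg η) s * tt η s

lemma Ps_eq (η : ℝ) (s : ℂ) : Ps η s = -∫ u in (0 : ℝ)..1, s * fs η (u * s) := rfl

lemma dsg_neg (η : ℝ) (z : ℂ) : deriv (sg η) (-z) = deriv (sg η) z := by
  have h4 : deriv (fun z => sg η (-z)) z = -deriv (sg η) (-z) := deriv_comp_neg (sg η) z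
  have h5 : (fun z => sg η (-z)) = fun z => -sg η z := by
    funext z
    exact sg_neg η z
  rw [h5, deriv.fun_neg] at h4
  exact (neg_injective h4).symm

lemma dsg_conj (η : ℝ) (z : ℂ) : deriv (sg η) ((starRingEnd ℂ) z) = (starRingEnd ℂ) (deriv (sg η) z) := by
  have h := deriv_refl η z
  rw [dsg_neg] at h
  exact h

lemma dsg_pi (η : ℝ) (z : ℂ) : deriv (sg η) (z + Real.pi * Complex.I) = -deriv (sg η) z := by
  have h4 : deriv (fun z => sg η (z + Real.pi * Complex.I)) z = deriv (sg η) (z + Real.pi * Complex.I) :=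
    deriv_comp_add_const (sg η) _ z
  have h5 : (fun z => sg η (z + Real.pi * Complex.I)) = fun z => -sg η z := by
    funext z
    exact sg_pi η z
  rw [h5, deriv.fun_neg] at h4
  exact h4.symm

lemma fs_neg (η : ℝ) (z : ℂ) : fs η (-z) = fs η z := by
  unfold fs
  rw [dsg_neg, tt_neg]

lemma fs_conj (η : ℝ) (z : ℂ) : fs η ((starRingEnd ℂ) z) = (starRingEnd ℂ) (fs η z) := by
  unfold fs
  rw [dsg_conj, tt_conj, map_mul]

lemma fs_pi (η : ℝ) (z : ℂ) : fs η (z + Real.pi * Complex.I) = fs η z := by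
  unfold fs
  rw [dsg_pi, tt_pi, neg_mul_neg]

lemma strip_open (η : ℝ) : IsOpen {s : ℂ | |s.re| < η} :=
  isOpen_lt (continuous_abs.comp Complex.continuous_re) continuous_const

lemma sg_diffOn (h : S_k1) {η : ℝ} (hη : 0 < η) : DifferentiableOn ℂ (sg η) {s : ℂ | |s.re| < η} :=
  fun s hs => ((h η hη).1 s hs).1.differentiableWithinAt

lemma tt_diffOn (h : S_k1) {η : ℝ} (hη : 0 < η) : DifferentiableOn ℂ (tt η) {s : ℂ | |s.re| < η} :=
  fun s hs => ((h η hη).1 s hs).2.differentiableWithinAt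

lemma fs_diffOn (h : S_k1) {η : ℝ} (hη : 0 < η) : DifferentiableOn ℂ (fs η) {s : ℂ | |s.re| < η} :=
  ((sg_diffOn h hη).deriv (strip_open η)).mul (tt_diffOn h hη)

lemma Ps_deriv (h : S_k1) {η : ℝ} (hη : 0 < η) {s : ℂ} (hs : |s.re| < η) :
    HasDerivAt (Ps η) (-(deriv (sg η) s * tt η s)) s := by
  have h1 := Pool.Agent.TH41.BL.LMAf.prim (strip_open η) (fun s hs u hu => ?_) (fs_diffOn h hη)
    (s₀ := s) hs
  · exact h1.neg
  · have hs' : |s.re| < η := hs
    show |((u : ℂ) * s).re| < η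
    rw [Complex.re_ofReal_mul, abs_mul, abs_of_nonneg hu.1]
    calc u * |s.re| ≤ 1 * |s.re| := mul_le_mul_of_nonneg_right hu.2 (abs_nonneg _)
      _ < η := by rw [one_mul]; exact hs'

lemma Ps_neg (η : ℝ) (s : ℂ) : Ps η (-s) = -Ps η s := by
  have e : ∫ u in (0 : ℝ)..1, -s * fs η (u * -s) = -∫ u in (0 : ℝ)..1, s * fs η (u * s) := by
    rw [← intervalIntegral.integral_neg]
    apply intervalIntegral.integral_congr
    intro u _
    simp only []
    rw [mul_neg, fs_neg, neg_mul]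
  rw [Ps_eq, Ps_eq, e]

lemma Ps_conj (η : ℝ) (s : ℂ) : Ps η ((starRingEnd ℂ) s) = (starRingEnd ℂ) (Ps η s) := by
  rw [Ps_eq, Ps_eq, map_neg, intervalIntegral.integral_of_le zero_le_one, intervalIntegral.integral_of_le zero_le_one,
    ← integral_conj]
  congr 1
  apply integral_congr_ae
  refine Eventually.of_forall fun u => ?_
  simp only []
  rw [map_mul, ← fs_conj, map_mul, Complex.conj_ofReal]

lemma Ps_I (η φ : ℝ) : (Ps η ((φ : ℂ) * Complex.I)).re = 0 := by
  have h1 : Ps η ((φ : ℂ) * Complex.I) = -(starRingEnd ℂ) (Ps η ((φ : ℂ) * Complex.I)) := by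
    conv_lhs => rw [← refl_I, Ps_neg, Ps_conj]
  have h2 := congrArg Complex.re h1
  rw [Complex.neg_re, Complex.conj_re] at h2
  linarith

lemma Ps_zero (η : ℝ) : Ps η 0 = 0 := by
  rw [Ps_eq]
  simp

lemma Ps_pi (h : S_k1) {η : ℝ} (hη : 0 < η) {s : ℂ} (hs : |s.re| < η) :
    Ps η (s + Real.pi * Complex.I) = Ps η s + Ps η (Real.pi * Complex.I) := by
  have hre : ∀ z : ℂ, (z + Real.pi * Complex.I).re = z.re := by
    intro z
    simp
  have hconv : Convex ℝ {s : ℂ | |s.re| < η} := by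
    have h1 : {s : ℂ | |s.re| < η} = {s : ℂ | -η < s.re} ∩ {s : ℂ | s.re < η} := by
      ext z
      simp only [Set.mem_ofPred_eq, Set.mem_inter_iff, abs_lt]
    rw [h1]
    exact (convex_halfSpace_re_gt _).inter (convex_halfSpace_re_lt _)
  have hd : ∀ z ∈ {s : ℂ | |s.re| < η},
      HasDerivAt (fun z => Ps η (z + Real.pi * Complex.I) - Ps η z) 0 z := by
    intro z hz
    have hz' : |z.re| < η := hz
    have h1 := Ps_deriv h hη (s := z + Real.pi * Complex.I) (by rw [hre]; exact hz')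
    have h2 := Ps_deriv h hη hz'
    have h3 : HasDerivAt (fun z : ℂ => z + Real.pi * Complex.I) 1 z := (hasDerivAt_id z).add_const _
    have h4 := (h1.comp z h3).sub h2
    refine h4.congr_deriv ?_
    have h5 : deriv (sg η) (z + Real.pi * Complex.I) * tt η (z + Real.pi * Complex.I) =
        deriv (sg η) z * tt η z := fs_pi η z
    rw [h5]
    ring
  have hc := hconv.is_const_of_fderivWithin_eq_zero (𝕜 := ℂ)
    (f := fun z => Ps η (z + Real.pi * Complex.I) - Ps η z)
    (fun z hz => (hd z hz).differentiableAt.differentiableWithinAt) (fun z hz => by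
      rw [fderivWithin_of_isOpen (strip_open η) hz]
      have := (hd z hz).hasFDerivAt.fderiv
      rw [this]
      ext
      simp) (x := s) (y := 0) hs (by
        show |(0 : ℂ).re| < η
        rw [Complex.zero_re, abs_zero]
        exact hη)
  simp only [zero_add, Ps_zero, sub_zero] at hc
  rw [← hc]
  ring

lemma Ps_pi_re (h : S_k1) {η : ℝ} (hη : 0 < η) {s : ℂ} (hs : |s.re| < η) :
    (Ps η (s + Real.pi * Complex.I)).re = (Ps η s).re := by
  rw [Ps_pi h hη hs, Complex.add_re, Ps_I, add_zero]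

/-- moving the imaginary part into `[0, π]` -/
lemma shift_int {g : ℂ → ℝ} {η : ℝ} (hg : ∀ s : ℂ, |s.re| < η → g (s + Real.pi * Complex.I) = g s) {s : ℂ}
    (hs : |s.re| < η) (k : ℤ) : g (s + (k * Real.pi : ℝ) * Complex.I) = g s := by
  induction k using Int.induction_on with
  | zero => simp
  | succ n ih =>
    rw [← ih, ← hg (s + ((n : ℤ) * Real.pi : ℝ) * Complex.I) (by simpa using hs)]
    congr 1
    push_cast
    ring
  | pred n ih =>
    rw [← ih, ← hg (s + ((-(n : ℤ) - 1 : ℤ) * Real.pi : ℝ) * Complex.I) (by simpa using hs)]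
    congr 1
    push_cast
    ring

theorem k2 : S_k2 := by
  intro h η hη
  refine ⟨fun s hs => Ps_deriv h hη hs, Ps_neg η, Ps_conj η, Ps_I η, fun s hs => Ps_pi_re h hη hs, ?_⟩
  intro η' h0 h1
  have hK : IsCompact (Complex.reProdIm (Set.Icc (-η') η') (Set.Icc 0 Real.pi)) := isCompact_Icc.reProdIm isCompact_Icc
  have hsub : Complex.reProdIm (Set.Icc (-η') η') (Set.Icc 0 Real.pi) ⊆ {s : ℂ | |s.re| < η} := by
    intro s hs
    rw [Complex.mem_reProdIm] at hs
    show |s.re| < η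
    have := abs_le.2 hs.1
    linarith
  have hc1 : ContinuousOn (sg η) (Complex.reProdIm (Set.Icc (-η') η') (Set.Icc 0 Real.pi)) :=
    (sg_diffOn h hη).continuousOn.mono hsub
  have hc2 : ContinuousOn (fun s => (Ps η s).re) (Complex.reProdIm (Set.Icc (-η') η') (Set.Icc 0 Real.pi)) := by
    apply Complex.continuous_re.comp_continuousOn
    intro s hs
    exact (Ps_deriv h hη (hsub hs)).continuousAt.continuousWithinAt
  obtain ⟨M1, hM1⟩ := hK.exists_bound_of_continuousOn hc1
  obtain ⟨M2, hM2⟩ := hK.exists_bound_of_continuousOn hc2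
  refine ⟨max M1 M2, fun s hs => ?_⟩
  have hs' : |s.re| < η := by linarith
  -- reduction to the rectangle
  obtain ⟨k, hk⟩ : ∃ k : ℤ, k = -⌊s.im / Real.pi⌋ := ⟨_, rfl⟩
  have hpi := Real.pi_pos
  have hmem : s + (k * Real.pi : ℝ) * Complex.I ∈ Complex.reProdIm (Set.Icc (-η') η') (Set.Icc 0 Real.pi) := by
    rw [Complex.mem_reProdIm]
    have e1 : (s + (k * Real.pi : ℝ) * Complex.I).re = s.re := by simp
    have e2 : (s + (k * Real.pi : ℝ) * Complex.I).im = s.im + k * Real.pi := by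
      rw [Complex.add_im, Complex.im_ofReal_mul, Complex.I_im, mul_one]
    rw [e1, e2]
    refine ⟨abs_le.1 hs, ?_⟩
    have f1 := Int.floor_le (s.im / Real.pi)
    have f2 := Int.lt_floor_add_one (s.im / Real.pi)
    rw [le_div_iff₀ hpi] at f1
    rw [div_lt_iff₀ hpi] at f2
    rw [hk]
    push_cast
    constructor <;> linarith
  have g1 : ‖sg η (s + (k * Real.pi : ℝ) * Complex.I)‖ = ‖sg η s‖ := by
    apply shift_int (g := fun s => ‖sg η s‖) (η := η) (fun s _ => ?_) hs' k
    rw [sg_pi, norm_neg]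
  have g2 : (Ps η (s + (k * Real.pi : ℝ) * Complex.I)).re = (Ps η s).re :=
    shift_int (g := fun s => (Ps η s).re) (η := η) (fun s hs => Ps_pi_re h hη hs) hs' k
  constructor
  · rw [← g1]
    exact (hM1 _ hmem).trans (le_max_left _ _)
  · rw [← g2]
    exact (hM2 _ hmem).trans (le_max_right _ _)

end Pool.Agent.Q24.SL
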