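import Pool.Agent.Q24.SL.K2

/-!
# Project SL2: job K3 (the derivative on the imaginary axis is positive)
-/

set_option autoImplicit false

open MeasureTheory Filter Topology

namespace Pool.Agent.Q24.SL

open Pool.Agent.Q167.SL

lemma no_dir (h3 : S_k3a) (h1 : S_k1) {η φ : ℝ} (hη : 0 < η) (hφ : |φ| < Real.pi / 2) {n : ℕ} {g : ℂ → ℂ}
    (hg : ContinuousAt g ((φ : ℂ) * Complex.I))
    (hF : ∀ᶠ z in 𝓝 ((φ : ℂ) * Complex.I), sg η z - sg η ((φ : ℂ) * Complex.I) =
      (z - (φ : ℂ) * Complex.I) ^ n * g z) (e : ℂ) (he : 0 < e.re)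
    (hneg : (e ^ n * g ((φ : ℂ) * Complex.I)).re < 0) : False := by
  obtain ⟨s₀, hs₀⟩ : ∃ s₀ : ℂ, s₀ = (φ : ℂ) * Complex.I := ⟨_, rfl⟩
  rw [← hs₀] at hg hF hneg
  have hpath : Tendsto (fun ρ : ℝ => s₀ + ρ * e) (𝓝[>] 0) (𝓝 s₀) := by
    have hc : Continuous (fun ρ : ℝ => s₀ + ρ * e) := by fun_prop
    have := hc.tendsto 0
    simp only [Complex.ofReal_zero, zero_mul, add_zero] at this
    exact this.mono_left nhdsWithin_le_nhds
  have e1 := hpath.eventually hF
  have e2 : ∀ᶠ ρ : ℝ in 𝓝[>] 0, (e ^ n * g (s₀ + ρ * e)).re < 0 := by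
    have h4 : Tendsto (fun ρ : ℝ => (e ^ n * g (s₀ + ρ * e)).re) (𝓝[>] 0) (𝓝 (e ^ n * g s₀).re) :=
      (Complex.continuous_re.tendsto _).comp (((hg.tendsto).comp hpath).const_mul _)
    exact h4.eventually_lt_const hneg
  have e3 : ∀ᶠ ρ : ℝ in 𝓝[>] 0, ρ * e.re < η := by
    have h4 : Tendsto (fun ρ : ℝ => ρ * e.re) (𝓝[>] 0) (𝓝 (0 * e.re)) :=
      ((continuous_id.mul continuous_const).tendsto 0).mono_left nhdsWithin_le_nhds
    rw [zero_mul] at h4
    exact h4.eventually_lt_const hη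
  have e4 : ∀ᶠ ρ : ℝ in 𝓝[>] 0, |φ + ρ * e.im| < Real.pi / 2 := by
    have h4 : Tendsto (fun ρ : ℝ => |φ + ρ * e.im|) (𝓝[>] 0) (𝓝 |φ + 0 * e.im|) :=
      ((continuous_abs.comp (continuous_const.add (continuous_id.mul continuous_const))).tendsto 0).mono_left
        nhdsWithin_le_nhds
    rw [zero_mul, add_zero] at h4
    exact h4.eventually_lt_const hφ
  obtain ⟨ρ, f1, f2, f3, f4, f5⟩ := (e1.and (e2.and (e3.and (e4.and self_mem_nhdsWithin)))).exists
  have hρ : 0 < ρ := f5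
  have hz : s₀ + ρ * e = ((ρ * e.re : ℝ) : ℂ) + ((φ + ρ * e.im : ℝ) : ℂ) * Complex.I := by
    rw [hs₀]
    apply Complex.ext <;> simp
  have h5 := h3 h1 η (ρ * e.re) (φ + ρ * e.im) hη (by positivity) f3 f4.le
  rw [← hz] at h5
  have h6 : sg η (s₀ + ρ * e) = sg η s₀ + ((ρ ^ n : ℝ) : ℂ) * (e ^ n * g (s₀ + ρ * e)) := by
    have h7 : s₀ + ρ * e - s₀ = ρ * e := by ring
    rw [h7, mul_pow] at f1
    push_cast
    linear_combination f1
  rw [h6, Complex.add_re, Complex.re_ofReal_mul] at h5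
  have h8 : (sg η s₀).re = 0 := by
    rw [hs₀]
    exact ((h1 η hη).2.2.2.2.1 φ).1
  rw [h8, zero_add] at h5
  have h9 : ρ ^ n * (e ^ n * g (s₀ + ρ * e)).re < 0 := mul_neg_of_pos_of_neg (by positivity) f2
  linarith

/-- a direction for `n ≥ 2` -/
lemma dir {n : ℕ} (hn : 2 ≤ n) {c : ℂ} (hc : c ≠ 0) : ∃ e : ℂ, 0 < e.re ∧ (e ^ n * c).re < 0 := by
  obtain ⟨ψ, hψ⟩ : ∃ ψ : ℝ, ψ = Complex.arg (-(starRingEnd ℂ) c) := ⟨_, rfl⟩
  have hpi := Real.pi_pos
  have h1 : |ψ| ≤ Real.pi := by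
    rw [hψ]
    exact Complex.abs_arg_le_pi _
  have h2 : -(starRingEnd ℂ) c = (‖c‖ : ℂ) * Complex.exp ((ψ : ℂ) * Complex.I) := by
    have h3 := Complex.norm_mul_exp_arg_mul_I (-(starRingEnd ℂ) c)
    rw [norm_neg, RCLike.norm_conj, ← hψ] at h3
    exact h3.symm
  have h3 : c = -((‖c‖ : ℂ) * Complex.exp (-((ψ : ℂ) * Complex.I))) := by
    have h4 := congrArg (starRingEnd ℂ) h2
    rw [map_neg, Complex.conj_conj, map_mul, Complex.conj_ofReal, ← Complex.exp_conj, map_mul, Complex.conj_ofReal,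
      Complex.conj_I] at h4
    rw [← neg_eq_iff_eq_neg, h4]
    congr 2
    ring
  have hn0 : (0 : ℝ) < n := by
    have : 0 < n := by omega
    exact_mod_cast this
  obtain ⟨θ, hθ⟩ : ∃ θ : ℝ, θ = 3 / 4 * ψ / n := ⟨_, rfl⟩
  have hθ1 : |θ| < Real.pi / 2 := by
    rw [hθ, abs_div, abs_mul, abs_of_pos hn0, abs_of_pos (show (0 : ℝ) < 3 / 4 by norm_num), div_lt_iff₀ hn0]
    have : (2 : ℝ) ≤ n := by exact_mod_cast hn
    nlinarith
  refine ⟨Complex.exp ((θ : ℂ) * Complex.I), ?_, ?_⟩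
  · rw [Complex.exp_ofReal_mul_I_re]
    exact Real.cos_pos_of_mem_Ioo (abs_lt.1 hθ1)
  · have h5 : Complex.exp ((θ : ℂ) * Complex.I) ^ n * c =
        ((-‖c‖ : ℝ) : ℂ) * Complex.exp (((-(ψ / 4) : ℝ) : ℂ) * Complex.I) := by
      conv_lhs => rw [h3]
      rw [← Complex.exp_nat_mul]
      have h6 : (n : ℂ) * ((θ : ℂ) * Complex.I) = ((3 / 4 * ψ : ℝ) : ℂ) * Complex.I := by
        have h7 : (n : ℝ) * θ = 3 / 4 * ψ := by
          rw [hθ]
          field_simp
        rw [← h7]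
        push_cast
        ring
      rw [h6, mul_neg, mul_left_comm, ← Complex.exp_add, Complex.ofReal_neg, neg_mul]
      congr 3
      push_cast
      ring
    rw [h5, Complex.re_ofReal_mul, Complex.exp_ofReal_mul_I_re, Real.cos_neg]
    have h6 : 0 < Real.cos (ψ / 4) := by
      apply Real.cos_pos_of_mem_Ioo
      obtain ⟨a1, a2⟩ := abs_le.1 h1
      constructor <;> linarith
    have h7 : 0 < ‖c‖ := norm_pos_iff.2 hc
    have := mul_pos h7 h6
    linarith

theorem k3 : S_k3 := by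
  intro h1 h3 η φ hη hφ
  by_contra hcon
  push Not at hcon
  obtain ⟨s₀, hs₀⟩ : ∃ s₀ : ℂ, s₀ = (φ : ℂ) * Complex.I := ⟨_, rfl⟩
  have hre : s₀.re = 0 := by
    rw [hs₀]
    simp
  have hmem : s₀ ∈ {s : ℂ | |s.re| < η} := by
    show |s₀.re| < η
    rw [hre, abs_zero]
    exact hη
  have hU := strip_open η
  have han : AnalyticOnNhd ℂ (sg η) {s : ℂ | |s.re| < η} := (sg_diffOn h1 hη).analyticOnNhd hU
  have hdan : AnalyticOnNhd ℂ (deriv (sg η)) {s : ℂ | |s.re| < η} :=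
    ((sg_diffOn h1 hη).deriv hU).analyticOnNhd hU
  have hF : AnalyticAt ℂ (fun z => sg η z - sg η s₀) s₀ := (han s₀ hmem).sub analyticAt_const
  -- not locally constant
  have hnz : ¬ ∀ᶠ z in 𝓝 s₀, sg η z - sg η s₀ = 0 := by
    intro hz
    have h4 : ∀ᶠ z in 𝓝 s₀, deriv (sg η) z = 0 := by
      have h5 : ∀ᶠ z in 𝓝 s₀, ∀ᶠ w in 𝓝 z, sg η w - sg η s₀ = 0 := eventually_eventually_nhds.2 hz
      filter_upwards [h5] with z hz'
      have h6 : sg η =ᶠ[𝓝 z] fun _ => sg η s₀ := by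
        filter_upwards [hz'] with w hw
        exact sub_eq_zero.1 hw
      rw [h6.deriv_eq, deriv_const]
    have hconv : Convex ℝ {s : ℂ | |s.re| < η} := by
      have h1 : {s : ℂ | |s.re| < η} = {s : ℂ | -η < s.re} ∩ {s : ℂ | s.re < η} := by
        ext z
        simp only [Set.mem_ofPred_eq, Set.mem_inter_iff, abs_lt]
      rw [h1]
      exact (convex_halfSpace_re_gt _).inter (convex_halfSpace_re_lt _)
    have h5 := hdan.eqOn_zero_of_preconnected_of_eventuallyEq_zero hconv.isPreconnected hmem h4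
    have h6 : (0 : ℂ) ∈ {s : ℂ | |s.re| < η} := by
      show |(0 : ℂ).re| < η
      rw [Complex.zero_re, abs_zero]
      exact hη
    have h7 := h5 h6
    obtain ⟨_, _, _, _, _, _, _, h8, _, h9, _⟩ := h1 η hη
    rw [h8] at h7
    rw [Pi.zero_apply] at h7
    have h10 : oS η = 0 := by exact_mod_cast h7
    exact h9.ne' h10
  obtain ⟨n, g, hg, hg0, hFg⟩ := hF.exists_eventuallyEq_pow_smul_nonzero_iff.2 hnz
  have hFg' : ∀ᶠ z in 𝓝 s₀, sg η z - sg η s₀ = (z - s₀) ^ n * g z := by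
    filter_upwards [hFg] with z hz
    rw [hz, smul_eq_mul]
  rw [hs₀] at hFg' hg hg0
  have key := no_dir h3 h1 hη hφ hg.continuousAt hFg'
  rw [← hs₀] at key hg hg0 hFg'
  obtain hn | hn := lt_or_ge n 2
  · interval_cases n
    · have h4 := hFg'.self_of_nhds
      rw [sub_self, pow_zero, one_mul] at h4
      exact hg0 h4.symm
    · -- the order is one
      have h4 : HasDerivAt (fun z => sg η z - sg η s₀) (g s₀) s₀ := by
        have h5 : HasDerivAt (fun z => (z - s₀) ^ 1 * g z) (g s₀) s₀ := by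
          have h6 : HasDerivAt (fun z : ℂ => z - s₀) 1 s₀ := (hasDerivAt_id s₀).sub_const _
          have h7 := h6.mul hg.differentiableAt.hasDerivAt
          simp only [sub_self, zero_mul, add_zero, one_mul] at h7
          refine h7.congr_of_eventuallyEq (Eventually.of_forall fun z => ?_)
          simp only [pow_one, Pi.mul_apply]
        exact h5.congr_of_eventuallyEq hFg'
      have h5 : deriv (sg η) s₀ = g s₀ := by
        have h6 := h4.deriv
        rwa [deriv_sub_const] at h6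
      have h6 : (deriv (sg η) s₀).im = 0 := by
        rw [hs₀]
        exact ((h1 η hη).2.2.2.2.1 φ).2.2
      rw [← hs₀, h5] at hcon
      rw [h5] at h6
      have h7 : (g s₀).re ≠ 0 := by
        intro h8
        apply hg0
        apply Complex.ext
        · rw [h8, Complex.zero_re]
        · rw [h6, Complex.zero_im]
      refine key 1 (by simp) ?_
      rw [one_pow, one_mul]
      exact lt_of_le_of_ne hcon h7
  · obtain ⟨e, he1, he2⟩ := dir hn hg0
    exact key e he1 he2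

end Pool.Agent.Q24.SL
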