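import Pool.Agent.Q24.SL.Ser

/-!
# Project SL2: job K5 (dependence on `η`)
-/

set_option autoImplicit false

open MeasureTheory Filter Topology

namespace Pool.Agent.Q24.SL

open Pool.Agent.Q167.SL

/-- The series on the imaginary axis. -/
noncomputable def hR (v η : ℝ) : ℝ := ∑' l : ℕ, Cl η l / (Sl η l + v)

lemma sinh_I_sq (φ : ℝ) : Complex.sinh ((φ : ℂ) * Complex.I) ^ 2 = ((-(Real.sin φ ^ 2) : ℝ) : ℂ) := by
  rw [Complex.sinh_mul_I, mul_pow, Complex.I_sq, ← Complex.ofReal_sin]
  push_cast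
  ring

lemma Hf_I (η φ : ℝ) : Hf η (Complex.sinh ((φ : ℂ) * Complex.I) ^ 2) = ((hR (Real.sin φ ^ 2) η : ℝ) : ℂ) := by
  rw [sinh_I_sq]
  unfold Hf hR
  rw [Complex.ofReal_tsum]
  apply tsum_congr
  intro l
  push_cast
  rw [sub_neg_eq_add]

lemma sg_I_im (η φ : ℝ) : (sg η ((φ : ℂ) * Complex.I)).im = Real.sin φ * hR (Real.sin φ ^ 2) η := by
  unfold sg
  rw [Hf_I, Complex.sinh_mul_I, ← Complex.ofReal_sin]
  simp only [Complex.mul_im, Complex.mul_re, Complex.ofReal_re, Complex.ofReal_im, Complex.I_re, Complex.I_im]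
  ring

lemma term_nonneg {η v : ℝ} (hη : 0 < η) (hv : 0 ≤ v) (l : ℕ) : 0 ≤ Cl η l / (Sl η l + v) :=
  div_nonneg (Cl_pos η l).le (by linarith [Sl_pos hη l])

lemma term_le_CS {η v : ℝ} (hη : 0 < η) (hv : 0 ≤ v) (l : ℕ) : Cl η l / (Sl η l + v) ≤ Cl η l / Sl η l :=
  div_le_div_of_nonneg_left (Cl_pos η l).le (Sl_pos hη l) (by linarith)

lemma hR_summable {η v : ℝ} (hη : 0 < η) (hv : 0 ≤ v) : Summable (fun l => Cl η l / (Sl η l + v)) :=
  Summable.of_nonneg_of_le (term_nonneg hη hv) (term_le_CS hη hv) (summ_CS hη)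

lemma hR_cont {v : ℝ} (hv : 0 ≤ v) : ContinuousOn (hR v) (Set.Ioi 0) := by
  intro η hη
  have hη' : 0 < η := hη
  obtain ⟨K, hK, h⟩ := CS_le (half_pos hη')
  have h1 : ContinuousOn (hR v) (Set.Ioi (η / 2)) := by
    apply continuousOn_tsum (u := fun l : ℕ => K * Real.exp (-((2 * l + 1) * (η / 2))))
    · intro l
      apply ContinuousOn.div
      · unfold Cl
        fun_prop
      · unfold Sl
        fun_prop
      · intro x hx
        have hx' : η / 2 < x := hx
        have := Sl_pos (show 0 < x by linarith) l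
        linarith
    · exact (summ_exp (half_pos hη')).mul_left K
    · intro l x hx
      have hx' : η / 2 < x := hx
      have hx0 : 0 < x := by linarith
      have hl : (0 : ℝ) ≤ l := by positivity
      rw [Real.norm_of_nonneg (term_nonneg hx0 hv l)]
      refine (term_le_CS hx0 hv l).trans ?_
      have h2 := h ((2 * l + 1) * x) (by nlinarith)
      refine h2.trans (mul_le_mul_of_nonneg_left ?_ hK.le)
      apply Real.exp_le_exp.2
      nlinarith
  exact (h1.continuousAt (Ioi_mem_nhds (by linarith))).continuousWithinAt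

theorem k5 : S_k5 := by
  intro φ h0 h1
  have hs : 0 < Real.sin φ := Real.sin_pos_of_pos_of_lt_pi h0 h1
  have hs1 : Real.sin φ ^ 2 ≤ 1 := Real.sin_sq_le_one φ
  refine ⟨?_, ?_⟩
  · simp only [sg_I_im]
    exact (hR_cont (sq_nonneg _)).const_mul _
  · intro B η hη
    obtain ⟨n, hn⟩ := exists_nat_ge (|B| * Real.cosh 1 / Real.sin φ)
    obtain ⟨η', hη'⟩ : ∃ η' : ℝ, η' = min η (1 / (2 * n + 1)) := ⟨_, rfl⟩
    have hp : 0 < η' := by
      rw [hη']
      exact lt_min hη (by positivity)
    have hle : η' ≤ 1 / (2 * n + 1) := by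
      rw [hη']
      exact min_le_right _ _
    refine ⟨η', hp, by rw [hη']; exact min_le_left _ _, ?_⟩
    rw [sg_I_im]
    have h2 : (n : ℝ) / Real.cosh 1 ≤ hR (Real.sin φ ^ 2) η' := by
      have h3 := (hR_summable hp (sq_nonneg (Real.sin φ))).sum_le_tsum (Finset.range n)
        (fun l _ => term_nonneg hp (sq_nonneg _) l)
      refine le_trans ?_ h3
      have h4 : ∀ l ∈ Finset.range n, 1 / Real.cosh 1 ≤ Cl η' l / (Sl η' l + Real.sin φ ^ 2) := by
        intro l hl
        rw [Finset.mem_range] at hl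
        have h5 : Cl η' l ≤ Real.cosh 1 := by
          unfold Cl
          rw [Real.cosh_le_cosh]
          have h6 : (0 : ℝ) ≤ (2 * l + 1) * η' := by positivity
          rw [abs_of_nonneg h6, abs_one]
          have h7 : (l : ℝ) ≤ n := by exact_mod_cast hl.le
          calc (2 * (l : ℝ) + 1) * η' ≤ (2 * n + 1) * (1 / (2 * n + 1)) :=
                mul_le_mul (by linarith) hle hp.le (by positivity)
            _ = 1 := by
                field_simp
        have h6 : Sl η' l + Real.sin φ ^ 2 ≤ Cl η' l ^ 2 := by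
          rw [Cl_sq]
          linarith
        have h7 := Cl_pos η' l
        have h8 := Sl_pos hp l
        calc 1 / Real.cosh 1 ≤ 1 / Cl η' l := one_div_le_one_div_of_le h7 h5
          _ = Cl η' l / Cl η' l ^ 2 := by
              field_simp
          _ ≤ _ := div_le_div_of_nonneg_left h7.le (by positivity) h6
      calc (n : ℝ) / Real.cosh 1 = ∑ _l ∈ Finset.range n, 1 / Real.cosh 1 := by
            rw [Finset.sum_const, Finset.card_range, nsmul_eq_mul]
            ring
        _ ≤ _ := Finset.sum_le_sum h4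
    have hc : 0 < Real.cosh 1 := Real.cosh_pos 1
    calc B ≤ |B| := le_abs_self B
      _ = Real.sin φ * (|B| * Real.cosh 1 / Real.sin φ / Real.cosh 1) := by
          field_simp
      _ ≤ Real.sin φ * (n / Real.cosh 1) := by
          apply mul_le_mul_of_nonneg_left _ hs.le
          exact div_le_div_of_nonneg_right hn hc.le
      _ ≤ _ := mul_le_mul_of_nonneg_left h2 hs.le

end Pool.Agent.Q24.SL
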