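import Pool.Agent.Q167.SL.StmA
import Pool.Agent.TH41.KL.QF

/-!
# Project SL2: job PSD (positive definiteness on the shell)
-/

set_option autoImplicit false

open MeasureTheory Filter Topology

namespace Pool.Agent.Q24.SL

open Pool.Agent.Q167.SL
open Pool.Agent.TH41.KL (PD cosA)
open Pool.Agent.TH41.KL.QFf (psd_finite un norm_un measurable_un inner_un)

lemma shell_meas (n : ℕ) (r : ℝ) : MeasurableSet (shell n r) := by
  have h1 : shell n r = {x | r < ‖x‖} ∩ {x | ‖x‖ < 1} := rfl
  rw [h1]
  exact (measurableSet_lt measurable_const measurable_norm).inter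
    (measurableSet_lt measurable_norm measurable_const)

lemma shell_fin (n : ℕ) (r : ℝ) : IsFiniteMeasure (volume.restrict (shell n r)) := by
  refine ⟨?_⟩
  rw [Measure.restrict_apply_univ]
  refine lt_of_le_of_lt (measure_mono (t := Metric.ball 0 1) ?_) measure_ball_lt_top
  intro x hx
  rw [mem_ball_zero_iff]
  exact hx.2

lemma shell_ne {n : ℕ} {r : ℝ} (hr : 0 ≤ r) {x : EuclideanSpace ℝ (Fin n)} (hx : x ∈ shell n r) : x ≠ 0 := by
  rintro rfl
  have h1 : r < ‖(0 : EuclideanSpace ℝ (Fin n))‖ := hx.1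
  rw [norm_zero] at h1
  linarith

theorem psd : S_psd := by
  intro n g r hn hg hPD hr Fc hFc hM
  obtain ⟨M, hM⟩ := hM
  have hM0 : 0 ≤ M := (norm_nonneg _).trans (hM 0)
  have : NeZero n := ⟨hn.ne'⟩
  have : Nontrivial (EuclideanSpace ℝ (Fin n)) := by
    have : Nonempty (Fin n) := ⟨⟨0, hn⟩⟩
    infer_instance
  set G : ℝ → ℝ := Set.IccExtend (show (-1 : ℝ) ≤ 1 by norm_num) (fun t => g t) with hG
  have hGc : Continuous G := by
    apply Continuous.Icc_extend'
    exact continuousOn_iff_continuous_domRestrict.1 hg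
  have hGg : ∀ t, -1 ≤ t → t ≤ 1 → G t = g t := by
    intro t h1 h2
    rw [hG, Set.IccExtend_of_mem _ _ ⟨h1, h2⟩]
  obtain ⟨K, hK⟩ : ∃ K : ℝ, ∀ t, |G t| ≤ K := by
    obtain ⟨K, hK⟩ := (isCompact_Icc (a := (-1 : ℝ)) (b := 1)).exists_bound_of_continuousOn hg
    refine ⟨K, fun t => ?_⟩
    have := hK (Set.projIcc (-1) 1 (by norm_num) t) (Set.projIcc (-1 : ℝ) 1 (by norm_num) t).2
    simpa [hG, Set.IccExtend] using this
  have hK0 : 0 ≤ K := (abs_nonneg _).trans (hK 0)
  obtain ⟨e, he⟩ : ∃ e : EuclideanSpace ℝ (Fin n), ‖e‖ = 1 := exists_norm_eq _ zero_le_one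
  have hcs : ∀ u w : EuclideanSpace ℝ (Fin n), |inner ℝ (un e u) (un e w)| ≤ 1 := by
    intro u w
    have := abs_real_inner_le_norm (un e u) (un e w)
    rwa [norm_un he, norm_un he, mul_one] at this
  -- the kernels
  obtain ⟨H, hH⟩ : ∃ H : EuclideanSpace ℝ (Fin n) × EuclideanSpace ℝ (Fin n) → ℝ,
    H = fun z => G (inner ℝ (un e z.1) (un e z.2)) := ⟨_, rfl⟩
  have hHm : Measurable H := by
    rw [hH]
    refine hGc.measurable.comp ?_
    exact Measurable.inner ((measurable_un e).comp measurable_fst) ((measurable_un e).comp measurable_snd)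
  have hHb : ∀ z, |H z| ≤ K := by
    intro z
    rw [hH]
    exact hK _
  have hHeq : ∀ x ∈ shell n r, ∀ y ∈ shell n r, H (x, y) = g (cosA x y) := by
    intro x hx y hy
    have h1 := abs_le.1 (hcs x y)
    rw [hH]
    simp only []
    rw [hGg _ h1.1 h1.2, inner_un (shell_ne hr hx) (shell_ne hr hy)]
  obtain ⟨C, hC⟩ : ∃ C : EuclideanSpace ℝ (Fin n) × EuclideanSpace ℝ (Fin n) → ℂ,
    C = fun z => ((H z : ℝ) : ℂ) * Fc z.1 * (starRingEnd ℂ) (Fc z.2) := ⟨_, rfl⟩
  have hCm : Measurable C := by
    rw [hC]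
    refine ((Complex.measurable_ofReal.comp hHm).mul (hFc.measurable.comp measurable_fst)).mul ?_
    exact Complex.continuous_conj.measurable.comp (hFc.measurable.comp measurable_snd)
  have hCb : ∀ z, ‖C z‖ ≤ K * M * M := by
    intro z
    rw [hC]
    simp only []
    rw [norm_mul, norm_mul, RCLike.norm_conj, Complex.norm_real, Real.norm_eq_abs]
    exact mul_le_mul (mul_le_mul (hHb z) (hM _) (norm_nonneg _) hK0) (hM _) (norm_nonneg _)
      (mul_nonneg hK0 hM0)
  have hfin := shell_fin n r
  have hCi : Integrable C ((volume.restrict (shell n r)).prod (volume.restrict (shell n r))) :=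
    Integrable.of_bound (C := K * M * M) hCm.aestronglyMeasurable (Eventually.of_forall hCb)
  have hCre : ∀ z, (C z).re = H z * ((Fc z.1).re * (Fc z.2).re + (Fc z.1).im * (Fc z.2).im) := by
    intro z
    rw [hC]
    simp only [Complex.mul_re, Complex.mul_im, Complex.conj_re, Complex.conj_im, Complex.ofReal_re,
      Complex.ofReal_im]
    ring
  have e1 : ∫ x in shell n r, ∫ y in shell n r, ((g (cosA x y) : ℝ) : ℂ) * Fc x * (starRingEnd ℂ) (Fc y) =
      ∫ x in shell n r, ∫ y in shell n r, C (x, y) := by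
    apply setIntegral_congr_fun (shell_meas n r)
    intro x hx
    apply setIntegral_congr_fun (shell_meas n r)
    intro y hy
    simp only []
    rw [hC, ← hHeq x hx y hy]
  rw [e1]
  have e2 : (∫ x in shell n r, ∫ y in shell n r, C (x, y)).re = ∫ x in shell n r, ∫ y in shell n r, (C (x, y)).re := by
    have h1 := integral_re (𝕜 := ℂ) hCi.integral_prod_left
    have h2 : ∀ x, (∫ y in shell n r, C (x, y)).re = ∫ y in shell n r, (C (x, y)).re := by
      intro x
      have h3 : Integrable (fun y => C (x, y)) (volume.restrict (shell n r)) :=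
        Integrable.of_bound (C := K * M * M) (hCm.comp measurable_prodMk_left).aestronglyMeasurable
          (Eventually.of_forall fun y => hCb _)
      exact (integral_re (𝕜 := ℂ) h3).symm
    calc (∫ x in shell n r, ∫ y in shell n r, C (x, y)).re =
        ∫ x in shell n r, (∫ y in shell n r, C (x, y)).re := h1.symm
      _ = _ := by simp only [h2]
  rw [e2]
  apply psd_finite (volume.restrict (shell n r)) (fun z => (C z).re) (Complex.measurable_re.comp hCm) (K * M * M)
    (fun z => (Complex.abs_re_le_norm _).trans (hCb z))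
  intro m x
  have h1 := hPD m (fun i => un e (x i)) (fun i => (Fc (x i)).re) (fun i => norm_un he _)
  have h2 := hPD m (fun i => un e (x i)) (fun i => (Fc (x i)).im) (fun i => norm_un he _)
  refine (add_nonneg h1 h2).trans_eq ?_
  rw [← Finset.sum_add_distrib]
  refine Finset.sum_congr rfl fun i _ => ?_
  rw [← Finset.sum_add_distrib]
  refine Finset.sum_congr rfl fun j _ => ?_
  have h3 := abs_le.1 (hcs (x i) (x j))
  rw [hCre, hH]
  simp only []
  rw [hGg _ h3.1 h3.2]
  ring

end Pool.Agent.Q24.SL
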