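import Pool.Agent.Q167.SL.StmD

/-!
# Project SL2: the series `Hf`, `Gf`; jobs K1A and K1B
-/

set_option autoImplicit false

open MeasureTheory Filter Topology

namespace Pool.Agent.Q24.SL

open Pool.Agent.Q167.SL

lemma sinh_l {η : ℝ} (hη : 0 < η) (l : ℕ) : 0 < Real.sinh ((2 * l + 1) * η) :=
  Real.sinh_pos_iff.2 (by positivity)

lemma Sl_pos {η : ℝ} (hη : 0 < η) (l : ℕ) : 0 < Sl η l := by
  unfold Sl
  have := sinh_l hη l
  positivity

lemma Cl_one (η : ℝ) (l : ℕ) : 1 ≤ Cl η l := Real.one_le_cosh _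

lemma Cl_pos (η : ℝ) (l : ℕ) : 0 < Cl η l := lt_of_lt_of_le one_pos (Cl_one η l)

lemma Cl_sq (η : ℝ) (l : ℕ) : Cl η l ^ 2 = 1 + Sl η l := by
  unfold Cl Sl
  rw [Real.cosh_sq]
  ring

lemma Sl_zero (η : ℝ) : Sl η 0 = Real.sinh η ^ 2 := by
  unfold Sl
  norm_num

lemma Sl_mono {η : ℝ} (hη : 0 < η) (l : ℕ) : Sl η 0 ≤ Sl η l := by
  rw [Sl_zero]
  unfold Sl
  apply pow_le_pow_left₀ (Real.sinh_nonneg_iff.2 hη.le)
  apply Real.sinh_le_sinh.2
  have : (0 : ℝ) ≤ l := by positivity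
  nlinarith

/-- `sinh u ≥ δ e^u` for `u ≥ η` -/
lemma sinh_ge {η u : ℝ} (h : η ≤ u) : (1 - Real.exp (-(2 * η))) / 2 * Real.exp u ≤ Real.sinh u := by
  rw [Real.sinh_eq]
  have h1 : Real.exp (-(2 * η)) * Real.exp u ≥ Real.exp (-u) := by
    rw [← Real.exp_add]
    apply Real.exp_le_exp.2
    linarith
  linarith

lemma cosh_le_exp {u : ℝ} (h : 0 ≤ u) : Real.cosh u ≤ Real.exp u := by
  rw [Real.cosh_eq]
  have : Real.exp (-u) ≤ Real.exp u := Real.exp_le_exp.2 (by linarith)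
  linarith

lemma summ_exp {η : ℝ} (hη : 0 < η) : Summable (fun l : ℕ => Real.exp (-((2 * l + 1) * η))) := by
  have h1 : ∀ l : ℕ, Real.exp (-((2 * l + 1) * η)) = Real.exp (-η) * Real.exp (-(2 * η)) ^ l := by
    intro l
    rw [← Real.exp_nat_mul, ← Real.exp_add]
    congr 1
    ring
  simp only [h1]
  apply Summable.mul_left
  apply summable_geometric_of_lt_one (Real.exp_pos _).le
  rw [Real.exp_lt_one_iff]
  linarith

lemma CS_le {η : ℝ} (hη : 0 < η) : ∃ K : ℝ, 0 < K ∧ ∀ u : ℝ, η ≤ u →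
    Real.cosh u / Real.sinh u ^ 2 ≤ K * Real.exp (-u) := by
  obtain ⟨δ, hδ⟩ : ∃ δ : ℝ, δ = (1 - Real.exp (-(2 * η))) / 2 := ⟨_, rfl⟩
  have h1 : Real.exp (-(2 * η)) < 1 := by
    rw [Real.exp_lt_one_iff]
    linarith
  have hδ0 : 0 < δ := by
    rw [hδ]
    linarith
  refine ⟨1 / δ ^ 2, by positivity, fun u hu => ?_⟩
  have h2 := sinh_ge hu
  rw [← hδ] at h2
  have h3 := cosh_le_exp (hη.le.trans hu)
  have he := Real.exp_pos u
  have h4 : 0 < Real.sinh u := lt_of_lt_of_le (by positivity) h2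
  rw [div_le_iff₀ (by positivity), Real.exp_neg]
  have h5 : (δ * Real.exp u) ^ 2 ≤ Real.sinh u ^ 2 := pow_le_pow_left₀ (by positivity) h2 2
  calc Real.cosh u ≤ Real.exp u := h3
    _ = 1 / δ ^ 2 * (Real.exp u)⁻¹ * (δ * Real.exp u) ^ 2 := by
        field_simp
    _ ≤ _ := mul_le_mul_of_nonneg_left h5 (by positivity)

lemma summ_CS {η : ℝ} (hη : 0 < η) : Summable (fun l => Cl η l / Sl η l) := by
  obtain ⟨K, hK, h⟩ := CS_le hη
  refine Summable.of_nonneg_of_le (fun l => ?_) (fun l => ?_) ((summ_exp hη).mul_left K)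
  · exact div_nonneg (Cl_pos η l).le (Sl_pos hη l).le
  · apply h
    have : (0 : ℝ) ≤ l := by positivity
    nlinarith

lemma summ_1S {η : ℝ} (hη : 0 < η) : Summable (fun l => 1 / Sl η l) := by
  refine Summable.of_nonneg_of_le (fun l => ?_) (fun l => ?_) (summ_CS hη)
  · exact div_nonneg zero_le_one (Sl_pos hη l).le
  · exact div_le_div_of_nonneg_right (Cl_one η l) (Sl_pos hη l).le

/-- lower bound for the denominators -/
lemma nrm_ge {η ρ : ℝ} (hη : 0 < η) (h0 : 0 < ρ) (h1 : ρ ≤ Sl η 0) {w : ℂ} (hw : w.re ≤ Sl η 0 - ρ) (l : ℕ) :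
    ρ / Sl η 0 * Sl η l ≤ ‖(Sl η l : ℂ) - w‖ := by
  have h2 := Sl_mono hη l
  have h3 := Sl_pos hη 0
  have h4 : ρ / Sl η 0 ≤ 1 := by
    rw [div_le_one h3]
    exact h1
  have h5 : ((Sl η l : ℂ) - w).re = Sl η l - w.re := by
    rw [Complex.sub_re, Complex.ofReal_re]
  refine le_trans ?_ ((le_abs_self _).trans (Complex.abs_re_le_norm _))
  rw [h5]
  have h6 : ρ / Sl η 0 * Sl η l = ρ + ρ / Sl η 0 * (Sl η l - Sl η 0) := by
    field_simp
    ring
  rw [h6]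
  have h7 : ρ / Sl η 0 * (Sl η l - Sl η 0) ≤ 1 * (Sl η l - Sl η 0) :=
    mul_le_mul_of_nonneg_right h4 (by linarith)
  linarith

lemma term_le {η ρ : ℝ} (hη : 0 < η) (h0 : 0 < ρ) (h1 : ρ ≤ Sl η 0) {w : ℂ} (hw : w.re ≤ Sl η 0 - ρ) (l : ℕ)
    {c : ℝ} (hc : 0 ≤ c) : ‖(c : ℂ) / ((Sl η l : ℂ) - w)‖ ≤ Sl η 0 / ρ * (c / Sl η l) := by
  have h2 := nrm_ge hη h0 h1 hw l
  have h3 := Sl_pos hη 0
  have h4 := Sl_pos hη l
  rw [norm_div, Complex.norm_real, Real.norm_of_nonneg hc]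
  calc c / ‖(Sl η l : ℂ) - w‖ ≤ c / (ρ / Sl η 0 * Sl η l) :=
        div_le_div_of_nonneg_left hc (by positivity) h2
    _ = _ := by
        field_simp

lemma exists_rho {η : ℝ} (hη : 0 < η) {w : ℂ} (hw : w.re < Sl η 0) : ∃ ρ : ℝ, 0 < ρ ∧ ρ ≤ Sl η 0 ∧
    w.re < Sl η 0 - ρ := by
  have h := Sl_pos hη 0
  refine ⟨min (Sl η 0) ((Sl η 0 - w.re) / 2), lt_min h (by linarith), min_le_left _ _, ?_⟩
  have := min_le_right (Sl η 0) ((Sl η 0 - w.re) / 2)
  linarith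

lemma den_ne {η : ℝ} (hη : 0 < η) {w : ℂ} (hw : w.re < Sl η 0) (l : ℕ) : (Sl η l : ℂ) - w ≠ 0 := by
  intro h
  have h1 := congrArg Complex.re h
  rw [Complex.sub_re, Complex.ofReal_re, Complex.zero_re] at h1
  have := Sl_mono hη l
  linarith

section gen

variable {η : ℝ} (hη : 0 < η) {c : ℕ → ℝ} (hc : ∀ l, 0 ≤ c l) (hs : Summable (fun l => c l / Sl η l))
include hη hc hs

lemma gen_summable {w : ℂ} (hw : w.re < Sl η 0) : Summable (fun l => (c l : ℂ) / ((Sl η l : ℂ) - w)) := by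
  obtain ⟨ρ, h0, h1, h2⟩ := exists_rho hη hw
  exact Summable.of_norm_bounded (hs.mul_left _) (fun l => term_le hη h0 h1 h2.le l (hc l))

lemma gen_diff {w : ℂ} (hw : w.re < Sl η 0) :
    DifferentiableAt ℂ (fun w : ℂ => ∑' l : ℕ, (c l : ℂ) / ((Sl η l : ℂ) - w)) w := by
  obtain ⟨ρ, h0, h1, h2⟩ := exists_rho hη hw
  have hU : IsOpen {z : ℂ | z.re < Sl η 0 - ρ} := isOpen_lt Complex.continuous_re continuous_const
  have h3 : DifferentiableOn ℂ (fun w : ℂ => ∑' l : ℕ, (c l : ℂ) / ((Sl η l : ℂ) - w))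
      {z : ℂ | z.re < Sl η 0 - ρ} := by
    apply Complex.differentiableOn_tsum_of_summable_norm (hs.mul_left (Sl η 0 / ρ))
    · intro l z hz
      have hz' : z.re < Sl η 0 - ρ := hz
      apply DifferentiableAt.differentiableWithinAt
      apply DifferentiableAt.div (by fun_prop) (by fun_prop)
      exact den_ne hη (by linarith) l
    · exact hU
    · intro l z hz
      have hz' : z.re < Sl η 0 - ρ := hz
      exact term_le hη h0 h1 hz'.le l (hc l)
  exact h3.differentiableAt (hU.mem_nhds h2)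

lemma gen_re_pos (hc0 : 0 < c 0) {w : ℂ} (hw : w.re < Sl η 0) :
    0 < (∑' l : ℕ, (c l : ℂ) / ((Sl η l : ℂ) - w)).re := by
  have hsm := gen_summable hη hc hs hw
  rw [Complex.re_tsum hsm]
  have h1 : ∀ l, ((c l : ℂ) / ((Sl η l : ℂ) - w)).re = c l * ((Sl η l - w.re) / Complex.normSq ((Sl η l : ℂ) - w)) := by
    intro l
    rw [div_eq_mul_inv, Complex.re_ofReal_mul, Complex.inv_re, Complex.sub_re, Complex.ofReal_re]
  have h2 : ∀ l, 0 < (Sl η l - w.re) / Complex.normSq ((Sl η l : ℂ) - w) := by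
    intro l
    apply div_pos
    · have := Sl_mono hη l
      linarith
    · exact Complex.normSq_pos.2 (den_ne hη hw l)
  have hsr : Summable (fun l => ((c l : ℂ) / ((Sl η l : ℂ) - w)).re) :=
    (Complex.hasSum_re hsm.hasSum).summable
  refine hsr.tsum_pos (fun l => ?_) 0 ?_
  · rw [h1]
    exact mul_nonneg (hc l) (h2 l).le
  · rw [h1]
    exact mul_pos hc0 (h2 0)

end gen

lemma Gf_eq (η : ℝ) : Gf η = fun w : ℂ => ∑' l : ℕ, (((fun _ : ℕ => (1 : ℝ)) l : ℝ) : ℂ) / ((Sl η l : ℂ) - w) := by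
  funext w
  unfold Gf
  simp only [Complex.ofReal_one]

lemma Hf_diff {η : ℝ} (hη : 0 < η) {w : ℂ} (hw : w.re < Sl η 0) : DifferentiableAt ℂ (Hf η) w :=
  gen_diff hη (fun l => (Cl_pos η l).le) (summ_CS hη) hw

lemma Gf_diff {η : ℝ} (hη : 0 < η) {w : ℂ} (hw : w.re < Sl η 0) : DifferentiableAt ℂ (Gf η) w := by
  rw [Gf_eq]
  exact gen_diff hη (fun _ => zero_le_one) (summ_1S hη) hw

lemma Hf_summable {η : ℝ} (hη : 0 < η) {w : ℂ} (hw : w.re < Sl η 0) :
    Summable (fun l => (Cl η l : ℂ) / ((Sl η l : ℂ) - w)) :=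
  gen_summable hη (fun l => (Cl_pos η l).le) (summ_CS hη) hw

lemma Gf_summable {η : ℝ} (hη : 0 < η) {w : ℂ} (hw : w.re < Sl η 0) :
    Summable (fun l => 1 / ((Sl η l : ℂ) - w)) := by
  have := gen_summable hη (c := fun _ => 1) (fun _ => zero_le_one) (summ_1S hη) hw
  simpa only [Complex.ofReal_one] using this

lemma Hf_re_pos {η : ℝ} (hη : 0 < η) {w : ℂ} (hw : w.re < Sl η 0) : 0 < (Hf η w).re :=
  gen_re_pos hη (fun l => (Cl_pos η l).le) (summ_CS hη) (Cl_pos η 0) hw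

lemma Hf_ne {η : ℝ} (hη : 0 < η) {w : ℂ} (hw : w.re < Sl η 0) : Hf η w ≠ 0 := by
  intro h
  have := Hf_re_pos hη hw
  rw [h, Complex.zero_re] at this
  exact lt_irrefl _ this

lemma sinh_re_im (s : ℂ) : Complex.sinh s = ((Real.sinh s.re * Real.cos s.im : ℝ) : ℂ) +
    ((Real.cosh s.re * Real.sin s.im : ℝ) : ℂ) * Complex.I := by
  conv_lhs => rw [← Complex.re_add_im s]
  rw [Complex.sinh_add, Complex.sinh_mul_I, Complex.cosh_mul_I]
  push_cast
  ring

lemma sinh_sq_re (s : ℂ) : (Complex.sinh s ^ 2).re ≤ Real.sinh s.re ^ 2 := by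
  rw [sinh_re_im]
  obtain ⟨a, ha⟩ : ∃ a : ℝ, a = Real.sinh s.re * Real.cos s.im := ⟨_, rfl⟩
  obtain ⟨b, hb⟩ : ∃ b : ℝ, b = Real.cosh s.re * Real.sin s.im := ⟨_, rfl⟩
  rw [← ha, ← hb]
  have h1 : (((a : ℂ) + (b : ℂ) * Complex.I) ^ 2).re = a ^ 2 - b ^ 2 := by
    rw [sq]
    simp only [Complex.mul_re, Complex.add_re, Complex.ofReal_re, Complex.ofReal_im, Complex.I_re, Complex.I_im,
      Complex.add_im, Complex.mul_im]
    ring
  rw [h1, ha]
  have h2 : Real.cos s.im ^ 2 ≤ 1 := Real.cos_sq_le_one _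
  have h3 : (Real.sinh s.re * Real.cos s.im) ^ 2 ≤ Real.sinh s.re ^ 2 := by
    rw [mul_pow]
    calc Real.sinh s.re ^ 2 * Real.cos s.im ^ 2 ≤ Real.sinh s.re ^ 2 * 1 :=
          mul_le_mul_of_nonneg_left h2 (sq_nonneg _)
      _ = _ := mul_one _
  have := sq_nonneg b
  linarith

lemma sinh_sq_lt {η : ℝ} {s : ℂ} (hs : |s.re| < η) : (Complex.sinh s ^ 2).re < Sl η 0 := by
  refine lt_of_le_of_lt (sinh_sq_re s) ?_
  rw [Sl_zero]
  obtain ⟨h1, h2⟩ := abs_lt.1 hs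
  apply sq_lt_sq'
  · rw [← Real.sinh_neg]
    exact Real.sinh_lt_sinh.2 h1
  · exact Real.sinh_lt_sinh.2 h2

lemma sinh_ne {s : ℂ} (hs : 0 < s.re) : Complex.sinh s ≠ 0 := by
  intro h
  rw [sinh_re_im] at h
  have h1 := congrArg Complex.re h
  have h2 := congrArg Complex.im h
  simp only [Complex.mul_re, Complex.add_re, Complex.ofReal_re, Complex.ofReal_im, Complex.I_re, Complex.I_im,
      Complex.add_im, Complex.mul_im, Complex.zero_re, Complex.zero_im, mul_zero, mul_one, sub_zero,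
      add_zero, zero_add] at h1 h2
  have h3 : 0 < Real.sinh s.re := Real.sinh_pos_iff.2 hs
  have h4 := Real.cosh_pos s.re
  have h5 : Real.cos s.im = 0 := by
    rcases mul_eq_zero.1 h1 with h | h
    · exact absurd h h3.ne'
    · exact h
  have h6 : Real.sin s.im = 0 := by
    rcases mul_eq_zero.1 h2 with h | h
    · exact absurd h h4.ne'
    · exact h
  have h7 := Real.sin_sq_add_cos_sq s.im
  rw [h5, h6] at h7
  norm_num at h7

lemma HS_diff {η : ℝ} (hη : 0 < η) {s : ℂ} (hs : |s.re| < η) :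
    DifferentiableAt ℂ (fun z => Hf η (Complex.sinh z ^ 2)) s := by
  have h1 : DifferentiableAt ℂ (fun z : ℂ => Complex.sinh z ^ 2) s := by fun_prop
  exact DifferentiableAt.comp s (Hf_diff hη (sinh_sq_lt hs)) h1

lemma GS_diff {η : ℝ} (hη : 0 < η) {s : ℂ} (hs : |s.re| < η) :
    DifferentiableAt ℂ (fun z => Gf η (Complex.sinh z ^ 2)) s := by
  have h1 : DifferentiableAt ℂ (fun z : ℂ => Complex.sinh z ^ 2) s := by fun_prop
  exact DifferentiableAt.comp s (Gf_diff hη (sinh_sq_lt hs)) h1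

theorem k1a : S_k1a := by
  intro η hη
  refine ⟨fun s hs => ⟨?_, ?_, HS_diff hη hs⟩, fun s h1 h2 => ?_, fun s hs => Hf_ne hη (sinh_sq_lt hs)⟩
  · have h1 : DifferentiableAt ℂ (fun z : ℂ => Complex.sinh z) s := by fun_prop
    exact h1.mul (HS_diff hη hs)
  · have h1 : DifferentiableAt ℂ (fun z : ℂ => Complex.cosh z) s := by fun_prop
    exact (h1.mul (GS_diff hη hs)).div (HS_diff hη hs) (Hf_ne hη (sinh_sq_lt hs))
  · have h3 : |s.re| < η := by
      rw [abs_of_pos h1]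
      exact h2
    exact mul_ne_zero (sinh_ne h1) (Hf_ne hη (sinh_sq_lt h3))

/-! ### symmetries -/

lemma Hf_conj (η : ℝ) (w : ℂ) : Hf η ((starRingEnd ℂ) w) = (starRingEnd ℂ) (Hf η w) := by
  unfold Hf
  rw [Complex.conj_tsum]
  apply tsum_congr
  intro l
  rw [map_div₀, map_sub, Complex.conj_ofReal, Complex.conj_ofReal]

lemma Gf_conj (η : ℝ) (w : ℂ) : Gf η ((starRingEnd ℂ) w) = (starRingEnd ℂ) (Gf η w) := by
  unfold Gf
  rw [Complex.conj_tsum]
  apply tsum_congr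
  intro l
  rw [map_div₀, map_sub, Complex.conj_ofReal, map_one]

lemma sg_neg (η : ℝ) (s : ℂ) : sg η (-s) = -sg η s := by
  unfold sg
  rw [Complex.sinh_neg, neg_sq, neg_mul]

lemma tt_neg (η : ℝ) (s : ℂ) : tt η (-s) = tt η s := by
  unfold tt
  rw [Complex.sinh_neg, Complex.cosh_neg, neg_sq]

lemma sg_conj (η : ℝ) (s : ℂ) : sg η ((starRingEnd ℂ) s) = (starRingEnd ℂ) (sg η s) := by
  unfold sg
  rw [map_mul, Complex.sinh_conj, ← map_pow, Hf_conj]

lemma tt_conj (η : ℝ) (s : ℂ) : tt η ((starRingEnd ℂ) s) = (starRingEnd ℂ) (tt η s) := by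
  unfold tt
  rw [map_div₀, map_mul, Complex.sinh_conj, Complex.cosh_conj, ← map_pow, Hf_conj, Gf_conj]

lemma sinh_pi (s : ℂ) : Complex.sinh (s + Real.pi * Complex.I) = -Complex.sinh s := by
  rw [Complex.sinh_add, Complex.sinh_mul_I, Complex.cosh_mul_I, ← Complex.ofReal_cos, ← Complex.ofReal_sin,
    Real.cos_pi, Real.sin_pi]
  push_cast
  ring

lemma cosh_pi (s : ℂ) : Complex.cosh (s + Real.pi * Complex.I) = -Complex.cosh s := by
  rw [Complex.cosh_add, Complex.sinh_mul_I, Complex.cosh_mul_I, ← Complex.ofReal_cos, ← Complex.ofReal_sin,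
    Real.cos_pi, Real.sin_pi]
  push_cast
  ring

lemma sg_pi (η : ℝ) (s : ℂ) : sg η (s + Real.pi * Complex.I) = -sg η s := by
  unfold sg
  rw [sinh_pi, neg_sq, neg_mul]

lemma tt_pi (η : ℝ) (s : ℂ) : tt η (s + Real.pi * Complex.I) = -tt η s := by
  unfold tt
  rw [sinh_pi, cosh_pi, neg_sq, neg_mul, neg_div]

/-- the reflection in the imaginary axis -/
lemma refl_I (φ : ℝ) : -(starRingEnd ℂ) ((φ : ℂ) * Complex.I) = (φ : ℂ) * Complex.I := by
  rw [map_mul, Complex.conj_ofReal, Complex.conj_I]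
  ring

lemma deriv_refl (η : ℝ) (s : ℂ) : deriv (sg η) (-(starRingEnd ℂ) s) = (starRingEnd ℂ) (deriv (sg η) s) := by
  have h1 : (starRingEnd ℂ) ∘ sg η ∘ (starRingEnd ℂ) = sg η := by
    funext z
    simp only [Function.comp]
    rw [sg_conj, Complex.conj_conj]
  have h2 : deriv (sg η) = (starRingEnd ℂ) ∘ deriv (sg η) ∘ (starRingEnd ℂ) := by
    have h3 := deriv_conj_conj (𝕜 := ℂ) (f := sg η)
    rw [h1] at h3
    exact h3
  have h3 : ∀ z, deriv (sg η) (-z) = deriv (sg η) z := by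
    intro z
    have h4 : deriv (fun z => sg η (-z)) z = -deriv (sg η) (-z) := deriv_comp_neg (sg η) z
    have h5 : (fun z => sg η (-z)) = fun z => -sg η z := by
      funext z
      exact sg_neg η z
    rw [h5, deriv.fun_neg] at h4
    exact (neg_injective h4).symm
  rw [h3]
  conv_lhs => rw [h2]
  simp only [Function.comp, Complex.conj_conj]

theorem k1b : S_k1b := by
  intro η hη
  refine ⟨fun s => ⟨sg_neg η s, tt_neg η s⟩, fun s => ⟨sg_conj η s, tt_conj η s⟩,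
    fun s => ⟨sg_pi η s, tt_pi η s⟩, fun φ => ⟨?_, ?_, ?_⟩⟩
  · have h1 : sg η ((φ : ℂ) * Complex.I) = -(starRingEnd ℂ) (sg η ((φ : ℂ) * Complex.I)) := by
      conv_lhs => rw [← refl_I, sg_neg, sg_conj]
    have h2 := congrArg Complex.re h1
    rw [Complex.neg_re, Complex.conj_re] at h2
    linarith
  · have h1 : tt η ((φ : ℂ) * Complex.I) = (starRingEnd ℂ) (tt η ((φ : ℂ) * Complex.I)) := by
      conv_lhs => rw [← refl_I, tt_neg, tt_conj]
    exact Complex.conj_eq_iff_im.1 h1.symm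
  · have h1 := deriv_refl η ((φ : ℂ) * Complex.I)
    rw [refl_I] at h1
    exact Complex.conj_eq_iff_im.1 h1.symm

end Pool.Agent.Q24.SL
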